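import Pool.Agent.RSU.Ext

/-!
# RSU-Fin (0.7h): the upper bound for `satStar`

PLAN. `t = (k - 1) / 2`, `M0 = 6 t + 20`. For `n ≥ t + M0 + 3`: `m = (n - t - M0 - 3) / 4`, `M = n - t - 3 - 4 m ∈ [M0, M0 + 3]`, `Fintype.card (W t M m) = n`; transport
the saturated graph of `exists_sat` to `Fin n` along an equivalence `e` (`Fintype.equivFinOfCardEq`): `G.map e` / `SimpleGraph.comap e.symm`
(`Saturated` and the number of edges are invariant: `sat_iso`). For small `n`: `satStar_bound` gives a saturated graph with `satStar k n` edges,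
at most `n ^ 2` (`Sym2`-count). `t + M + 3 ≤ 7 t + 26 ≤ 7 k / 2 + 26 ≤ 5 k` for `k ≥ 19`.
-/

set_option autoImplicit false

namespace Pool.Agent.RSU

open Pool.Agent.Helper57.Rs

private theorem rf_iso {V V' : Type} {k : ℕ} (e : V ≃ V') {G : SimpleGraph V} {H : SimpleGraph V'}
    (h : ∀ u v, G.Adj u v ↔ H.Adj (e u) (e v)) (hH : RainbowFree k H) : RainbowFree k G := by
  obtain ⟨c, hc, hp⟩ := hH
  refine ⟨fun z => c (Sym2.map e z), ?_, ?_⟩
  · intro u v w huv huw hvw
    exact hc (e u) (e v) (e w) ((h u v).1 huv) ((h u w).1 huw) (fun h' => hvw (e.injective h'))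
  · rintro p ⟨h1, h2, h3⟩
    exact hp (fun i => e (p i)) ⟨e.injective.comp h1, fun i => (h _ _).1 (h2 i), h3⟩

theorem sat_iso {V V' : Type} {k : ℕ} (e : V ≃ V') {G : SimpleGraph V} (h : Saturated k G) :
    ∃ G' : SimpleGraph V', Saturated k G' ∧ G'.edgeSet.ncard = G.edgeSet.ncard := by
  refine ⟨G.comap e.symm, ⟨?_, ?_⟩, ?_⟩
  · exact rf_iso e.symm (fun u v => Iff.rfl) h.1
  · intro u v huv hadj hfree
    refine h.2 (e.symm u) (e.symm v) (fun h' => huv (e.symm.injective h')) hadj ?_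
    refine rf_iso e (fun x y => ?_) hfree
    rw [SimpleGraph.sup_adj, SimpleGraph.sup_adj, SimpleGraph.edge_adj, SimpleGraph.edge_adj,
      SimpleGraph.comap_adj, e.symm_apply_apply, e.symm_apply_apply]
    refine or_congr Iff.rfl (and_congr (or_congr (and_congr ?_ ?_) (and_congr ?_ ?_)) ?_)
    · rw [Equiv.eq_symm_apply]
    · rw [Equiv.eq_symm_apply]
    · rw [Equiv.eq_symm_apply]
    · rw [Equiv.eq_symm_apply]
    · exact e.injective.ne_iff.symm
  · have hset : (G.comap e.symm).edgeSet = Sym2.map e '' G.edgeSet := by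
      ext z
      refine Sym2.inductionOn z ?_
      intro x y
      rw [SimpleGraph.mem_edgeSet, SimpleGraph.comap_adj]
      constructor
      · intro hxy
        refine ⟨s(e.symm x, e.symm y), hxy, ?_⟩
        rw [Sym2.map_mk, e.apply_symm_apply, e.apply_symm_apply]
      · rintro ⟨w, hw, hwz⟩
        have : w = s(e.symm x, e.symm y) := by
          apply Sym2.map.injective e.injective
          rw [hwz, Sym2.map_mk, e.apply_symm_apply, e.apply_symm_apply]
        rw [this, SimpleGraph.mem_edgeSet] at hw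
        exact hw
    rw [hset, Set.ncard_image_of_injective _ (Sym2.map.injective e.injective)]

private theorem edges_le (n : ℕ) (G : SimpleGraph (Fin n)) : G.edgeSet.ncard ≤ n * n := by
  have hsub : G.edgeSet ⊆
      ((Finset.univ : Finset (Fin n × Fin n)).image (fun q => (s(q.1, q.2) : Sym2 (Fin n))) :
        Finset (Sym2 (Fin n))) := by
    intro z _
    refine Sym2.inductionOn z ?_
    intro x y
    rw [Finset.mem_coe, Finset.mem_image]
    exact ⟨(x, y), Finset.mem_univ _, rfl⟩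
  refine (Set.ncard_le_ncard hsub (Finset.finite_toSet _)).trans ?_
  rw [Set.ncard_coe_finset]
  refine Finset.card_image_le.trans ?_
  rw [Finset.card_univ, Fintype.card_prod, Fintype.card_fin]

theorem upper {k : ℕ} (hk : 19 ≤ k) (n : ℕ) : 4 * satStar k n ≤ 7 * n + 100 * k ^ 2 := by
  obtain ⟨t, ht1, ht2⟩ : ∃ t, 2 * t + 1 ≤ k ∧ k ≤ 2 * t + 2 := ⟨(k - 1) / 2, by omega, by omega⟩
  have h9 : 9 ≤ t := by omega
  by_cases hn : t + (6 * t + 20) + 3 ≤ n
  · obtain ⟨m, M, hM1, hM2, hm⟩ : ∃ m M, 6 * t + 20 ≤ M ∧ M ≤ 6 * t + 23 ∧ t + (M + 3) + m * 4 = n :=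
      ⟨(n - t - (6 * t + 20) - 3) / 4, n - t - 3 - 4 * ((n - t - (6 * t + 20) - 3) / 4),
        by omega, by omega, by omega⟩
    obtain ⟨G, hG, hc⟩ := exists_sat (m := m) h9 hM1 ht1 ht2
    have hcard : Fintype.card (W t M m) = n := by
      simp only [Fintype.card_sum, Fintype.card_prod, Fintype.card_fin]
      exact hm
    obtain ⟨G', hG', hc'⟩ := sat_iso (Fintype.equivFinOfCardEq hcard) hG
    have h1 : satStar k n ≤ G'.edgeSet.ncard := Nat.sInf_le ⟨G', hG', rfl⟩
    have h2 : (t + M + 3) ^ 2 ≤ (5 * k) ^ 2 := Nat.pow_le_pow_left (by omega) 2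
    have h3 : (5 * k) ^ 2 = 25 * k ^ 2 := by ring
    rw [hc'] at h1
    omega
  · obtain ⟨G, -, hc⟩ := (satStar_bound (k := k) (by omega) n).1
    have h1 := edges_le n G
    have h2 : n * n ≤ (5 * k) * (5 * k) := Nat.mul_le_mul (by omega) (by omega)
    have h3 : (5 * k) * (5 * k) = 25 * k ^ 2 := by ring
    omega

end Pool.Agent.RSU
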