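import Pool.Agent.RSU.Path

/-!
# RSU-Cl (0.8h): short paths outside the core

PLAN. `t = T.card`, `k = 2 t + 1` or `2 t + 2`. Each item: if the conclusion fails, the path outside the core is rainbow (consecutive edges
have different colours by `Proper`); take a core path of length `k - L` (`L` = number of edges of the outer path: 2, 3, 4) which avoids
the colours of the outer path (`core_path`, `F` = the set of the `L ≤ 4` colours), and close it: `cycle_of_list` for
`u :: (l ++ v :: [g]) `, `u :: (l ++ v :: [g', g])`, `u :: (l ++ v :: [g'', g', g])` (`cols_append`).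
`three` with `v ∈ T`: choose `z ∈ M`, `z ≠ u`, with `c s(z, v)` not in the set of the three colours (the map `z ↦ c s(z, v)` is injective on
`M`); `core_path` for `T.erase v` (`(T.erase v).card = t - 1`, `ℓ = k - 4 ≤ 2 (t - 1)`), from `u` to `z`, `F` = the three colours and
`c s(z, v)`; the cycle is `u, l, z, v, g', g`.
-/

set_option autoImplicit false

namespace Pool.Agent.RSU

open Pool.Agent.Helper57.Rs

variable {V : Type}

private theorem cols_split (c : Sym2 V → ℕ) (l : List V) (z : V) (l' : List V) :
    cols c (l ++ z :: l') = cols c (l ++ [z]) ++ cols c (z :: l') := by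
  cases l' with
  | nil => simp [cols]
  | cons a l' => exact cols_append c l z a l'

private theorem cols_length (c : Sym2 V → ℕ) : ∀ l : List V, (cols c l).length = l.length - 1
  | [] => rfl
  | [_] => rfl
  | a :: b :: l => by
    have h := cols_length c (b :: l)
    simp only [cols, List.length_cons] at h ⊢
    omega

/-- closing a core path with an outer path -/
private theorem close {G : SimpleGraph V} {c : Sym2 V → ℕ} {k : ℕ} {u z w : V} {l m : List V}
    (hP : Rb G c (u :: (l ++ [z]))) (hQ : Rb G c (z :: (m ++ [w])))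
    (hdis : ∀ x ∈ m ++ [w], x ∉ u :: (l ++ [z]))
    (hcol : ∀ y ∈ cols c (z :: (m ++ [w])), y ∉ cols c (u :: (l ++ [z])))
    (hadj : G.Adj w u) (h1 : c s(w, u) ∉ cols c (z :: (m ++ [w])))
    (h2 : c s(w, u) ∉ cols c (u :: (l ++ [z]))) (hk : l.length + m.length + 3 = k) :
    ∃ p : ZMod k → V, RainbowCycle k G c p := by
  have e : u :: ((l ++ z :: m) ++ [w]) = (u :: l) ++ z :: (m ++ [w]) := by simp
  have e2 : (u :: l) ++ [z] = u :: (l ++ [z]) := by simp
  have ec : cols c (u :: ((l ++ z :: m) ++ [w])) =
      cols c (u :: (l ++ [z])) ++ cols c (z :: (m ++ [w])) := by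
    rw [e, cols_split, e2]
  refine cycle_of_list (k := k) (u := u) (w := w) (l := l ++ z :: m) (by omega) ⟨?_, ?_, ?_⟩
    (by simp only [List.length_append, List.length_cons]; omega) hadj ?_
  · rw [e, List.isChain_split]
    exact ⟨by rw [e2]; exact hP.chain, hQ.chain⟩
  · have e3 : u :: ((l ++ z :: m) ++ [w]) = (u :: (l ++ [z])) ++ (m ++ [w]) := by simp
    rw [e3, List.nodup_append]
    refine ⟨hP.nodup, (List.nodup_cons.1 hQ.nodup).2, ?_⟩
    intro a ha b hb hab
    exact hdis b hb (hab ▸ ha)
  · rw [ec, List.nodup_append]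
    refine ⟨hP.rain, hQ.rain, ?_⟩
    intro a ha b hb hab
    exact hcol b hb (hab ▸ ha)
  · rw [ec, List.mem_append]
    rintro (h | h)
    · exact h2 h
    · exact h1 h

/-- closing an outer path through the core -/
private theorem close_core {G : SimpleGraph V} {c : Sym2 V → ℕ} (hc : Proper G c)
    {T M : Finset V} (hTM : ∀ x ∈ T, ∀ y ∈ M, G.Adj x y)
    (hTT : ∀ x ∈ T, ∀ y ∈ T, x ≠ y → G.Adj x y) (hd : Disjoint T M) (h8 : 8 ≤ T.card)
    (hM : 6 * T.card + 16 < M.card) {k : ℕ} {u z w : V} {m : List V} (hu : u ∈ M) (hz : z ∈ M)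
    (huz : u ≠ z) (hm : m.length ≤ 2) (hk1 : 8 + m.length ≤ k)
    (hk2 : k ≤ 2 * T.card + m.length + 2)
    (hQ : Rb G c (z :: (m ++ [w]))) (hout : ∀ x ∈ m ++ [w], x ∉ T ∧ x ∉ M)
    (hadj : G.Adj w u) (h1 : c s(w, u) ∉ cols c (z :: (m ++ [w]))) :
    ∃ p : ZMod k → V, RainbowCycle k G c p := by
  classical
  have hl : (c s(w, u) :: cols c (z :: (m ++ [w]))).length = m.length + 2 := by
    rw [List.length_cons, cols_length]
    simp only [List.length_append, List.length_cons, List.length_nil]
    omega
  have hF : (c s(w, u) :: cols c (z :: (m ++ [w]))).toFinset.card ≤ m.length + 2 := by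
    rw [← hl]
    exact List.toFinset_card_le _
  obtain ⟨l, hl1, hP, hlT, hlF⟩ := core_path hc hTM hTT hd
    (c s(w, u) :: cols c (z :: (m ++ [w]))).toFinset (by omega) (ℓ := k - m.length - 2)
    (by omega) (by omega) (by omega) hu hz huz
  refine close hP hQ ?_ ?_ hadj h1 ?_ (by omega)
  · intro x hx hx'
    obtain ⟨h3, h4⟩ := hout x hx
    simp only [List.mem_cons, List.mem_append, List.not_mem_nil, or_false] at hx'
    rcases hx' with rfl | h | rfl
    · exact h4 hu
    · exact (hlT x h).elim h3 h4
    · exact h4 hz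
  · intro y hy hy'
    exact hlF y hy' (by rw [List.mem_toFinset]; exact List.mem_cons_of_mem _ hy)
  · intro hy'
    exact hlF _ hy' (by rw [List.mem_toFinset]; exact List.mem_cons_self)

theorem cl_of_free {G : SimpleGraph V} {c : Sym2 V → ℕ} (hc : Proper G c) {T M : Finset V}
    (hTM : ∀ x ∈ T, ∀ y ∈ M, G.Adj x y) (hTT : ∀ x ∈ T, ∀ y ∈ T, x ≠ y → G.Adj x y)
    (hd : Disjoint T M) (h9 : 9 ≤ T.card) (hM : 6 * T.card + 20 < M.card) {k : ℕ}
    (hk1 : 2 * T.card + 1 ≤ k) (hk2 : k ≤ 2 * T.card + 2)
    (hfree : ∀ p : ZMod k → V, ¬ RainbowCycle k G c p) : CL G c (T : Set V) (M : Set V) := by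
  classical
  have hcol2 : ∀ a b g : V, G.Adj a g → G.Adj g b → a ≠ b → c s(a, g) ≠ c s(g, b) := by
    intro a b g h1 h2 hab
    rw [Sym2.eq_swap (a := a)]
    exact hc g a b h1.symm h2 hab
  refine ⟨?_, ?_, ?_⟩
  · intro u v g hu hv huv hgT hgM h1 h2
    have hu' : u ∈ M := hu
    have hv' : v ∈ M := hv
    have hgM' : g ∉ M := hgM
    have hgT' : g ∉ T := hgT
    have hvg : v ≠ g := fun h => hgM' (h ▸ hv')
    obtain ⟨p, hp⟩ := close_core (k := k) (m := []) (w := g) hc hTM hTT hd (by omega) (by omega)
      hu' hv' huv (by simp) (by simp; omega) (by simp; omega)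
      ⟨by simpa using h2.symm, by simpa using hvg, by simp [cols]⟩
      (by simpa using ⟨hgT', hgM'⟩) h1.symm
      (by
        simp only [List.nil_append, cols, List.mem_singleton]
        exact (hcol2 v u g h2.symm h1.symm huv.symm).symm)
    exact hfree p hp
  · intro u v g g' hu hv huv hgT hgM hgT1 hgM1 hgg h1 h2 h3
    by_contra hne
    have hu' : u ∈ M := hu
    have hgM' : g ∉ M := hgM
    have hgT' : g ∉ T := hgT
    have hgM1' : g' ∉ M := hgM1
    have hgT1' : g' ∉ T := hgT1
    have hne' : c s(v, g') ≠ c s(g, u) := by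
      rw [Sym2.eq_swap, Sym2.eq_swap (a := g)]
      exact Ne.symm hne
    have hug' : u ≠ g' := fun h => hgM1' (h ▸ hu')
    have hA : c s(g', g) ≠ c s(g, u) := hcol2 g' u g h2.symm h1.symm hug'.symm
    rcases hv with hv | hv
    · have hv' : v ∈ M := hv
      have hvg : v ≠ g := fun h => hgM' (h ▸ hv')
      have hvg' : v ≠ g' := fun h => hgM1' (h ▸ hv')
      have hB : c s(v, g') ≠ c s(g', g) := hcol2 v g g' h3.symm h2.symm hvg
      obtain ⟨p, hp⟩ := close_core (k := k) (m := [g']) (w := g) hc hTM hTT hd (by omega)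
        (by omega) hu' hv' huv (by simp) (by simp; omega) (by simp; omega)
        ⟨by simpa using ⟨h3.symm, h2.symm⟩, by simpa using ⟨⟨hvg', hvg⟩, hgg.symm⟩,
          by simpa [cols] using hB⟩
        (by
          intro x hx
          simp only [List.mem_append, List.mem_cons, List.not_mem_nil, or_false] at hx
          rcases hx with rfl | rfl
          · exact ⟨hgT1', hgM1'⟩
          · exact ⟨hgT', hgM'⟩) h1.symm
        (by
          simp only [List.cons_append, List.nil_append, cols, List.mem_cons, List.not_mem_nil,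
            or_false]
          rintro (h | h)
          · exact hne' h.symm
          · exact hA h.symm)
      exact hfree p hp
    · have hv' : v ∈ T := hv
      have hvM : v ∉ M := fun h => (Finset.disjoint_left.1 hd) hv' h
      have hvg : v ≠ g := fun h => hgT' (h ▸ hv')
      have hvg' : v ≠ g' := fun h => hgT1' (h ▸ hv')
      have hB : c s(v, g') ≠ c s(g', g) := hcol2 v g g' h3.symm h2.symm hvg
      -- choice of `z`
      have hz : ∃ z ∈ M, z ≠ u ∧
          c s(z, v) ∉ ({c s(v, g'), c s(g', g), c s(g, u)} : Finset ℕ) := by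
        by_contra hcon
        push Not at hcon
        have hinj : Set.InjOn (fun z => c s(z, v)) (↑(M.erase u) : Set V) := by
          intro a ha b hb hab
          by_contra hne2
          have ha' : a ∈ M := Finset.mem_of_mem_erase ha
          have hb' : b ∈ M := Finset.mem_of_mem_erase hb
          refine hc v a b (hTM v hv' a ha') (hTM v hv' b hb') hne2 ?_
          rw [Sym2.eq_swap, Sym2.eq_swap (a := v) (b := b)]
          exact hab
        have hmaps : ∀ z ∈ M.erase u, (fun z => c s(z, v)) z ∈
            ({c s(v, g'), c s(g', g), c s(g, u)} : Finset ℕ) := by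
          intro z hz
          exact hcon z (Finset.mem_of_mem_erase hz) (Finset.ne_of_mem_erase hz)
        have hle := Finset.card_le_card_of_injOn _ hmaps hinj
        have h3' := Finset.card_le_three (a := c s(v, g')) (b := c s(g', g)) (c := c s(g, u))
        rw [Finset.card_erase_of_mem hu'] at hle
        omega
      obtain ⟨z, hzM, hzu, hzc⟩ := hz
      simp only [Finset.mem_insert, Finset.mem_singleton, not_or] at hzc
      obtain ⟨hz1, hz2, hz3⟩ := hzc
      have hzv : z ≠ v := fun h => hvM (h ▸ hzM)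
      have hzg : z ≠ g := fun h => hgM' (h ▸ hzM)
      have hzg' : z ≠ g' := fun h => hgM1' (h ▸ hzM)
      have hcT : (T.erase v).card = T.card - 1 := Finset.card_erase_of_mem hv'
      obtain ⟨p, hp⟩ := close_core (k := k) (T := T.erase v) (m := [v, g']) (w := g) hc
        (fun x hx y hy => hTM x (Finset.mem_of_mem_erase hx) y hy)
        (fun x hx y hy hxy => hTT x (Finset.mem_of_mem_erase hx) y (Finset.mem_of_mem_erase hy)
          hxy)
        (hd.mono_left (Finset.erase_subset _ _)) (by omega) (by omega) hu' hzM hzu.symm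
        (by simp) (by simp; omega) (by simp; omega)
        ⟨by simpa using ⟨(hTM v hv' z hzM).symm, h3.symm, h2.symm⟩,
          by simpa using ⟨⟨hzv, hzg', hzg⟩, ⟨hvg', hvg⟩, hgg.symm⟩,
          by simpa [cols] using ⟨⟨hz1, hz2⟩, hB⟩⟩
        (by
          intro x hx
          simp only [List.mem_append, List.mem_cons, List.not_mem_nil, or_false] at hx
          rcases hx with (rfl | rfl) | rfl
          · exact ⟨Finset.notMem_erase _ _, hvM⟩
          · exact ⟨fun h => hgT1' (Finset.mem_of_mem_erase h), hgM1'⟩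
          · exact ⟨fun h => hgT' (Finset.mem_of_mem_erase h), hgM'⟩) h1.symm
        (by
          simp only [List.cons_append, List.nil_append, cols, List.mem_cons, List.not_mem_nil,
            or_false]
          rintro (h | h | h)
          · exact hz3 h.symm
          · exact hne' h.symm
          · exact hA h.symm)
      exact hfree p hp
  · intro u v g g' g'' hu hv huv hgT hgM hgT1 hgM1 hgT2 hgM2 hg1 hg2 hg3 h1 h2 h3 h4
    by_contra hne
    simp only [not_or] at hne
    obtain ⟨hn1, hn2, hn3⟩ := hne
    have hu' : u ∈ M := hu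
    have hv' : v ∈ M := hv
    have hgM' : g ∉ M := hgM
    have hgT' : g ∉ T := hgT
    have hgM1' : g' ∉ M := hgM1
    have hgT1' : g' ∉ T := hgT1
    have hgM2' : g'' ∉ M := hgM2
    have hgT2' : g'' ∉ T := hgT2
    have hug' : u ≠ g' := fun h => hgM1' (h ▸ hu')
    have hvg : v ≠ g := fun h => hgM' (h ▸ hv')
    have hvg' : v ≠ g' := fun h => hgM1' (h ▸ hv')
    have hvg'' : v ≠ g'' := fun h => hgM2' (h ▸ hv')
    have hA : c s(g', g) ≠ c s(g, u) := hcol2 g' u g h2.symm h1.symm hug'.symm
    have hB : c s(g'', g') ≠ c s(g', g) := hcol2 g'' g g' h3.symm h2.symm hg2.symm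
    have hC : c s(v, g'') ≠ c s(g'', g') := hcol2 v g' g'' h4.symm h3.symm hvg'
    have hn1' : c s(g'', g') ≠ c s(g, u) := by
      rw [Sym2.eq_swap, Sym2.eq_swap (a := g)]
      exact Ne.symm hn1
    have hn2' : c s(v, g'') ≠ c s(g, u) := by
      rw [Sym2.eq_swap, Sym2.eq_swap (a := g)]
      exact Ne.symm hn2
    have hn3' : c s(v, g'') ≠ c s(g', g) := by
      rw [Sym2.eq_swap, Sym2.eq_swap (a := g')]
      exact Ne.symm hn3
    obtain ⟨p, hp⟩ := close_core (k := k) (m := [g'', g']) (w := g) hc hTM hTT hd (by omega)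
      (by omega) hu' hv' huv (by simp) (by simp; omega) (by simp; omega)
      ⟨by simpa using ⟨h4.symm, h3.symm, h2.symm⟩,
        by simpa using ⟨⟨hvg'', hvg', hvg⟩, ⟨hg3.symm, hg2.symm⟩, hg1.symm⟩,
        by simpa [cols] using ⟨⟨hC, hn3'⟩, hB⟩⟩
      (by
        intro x hx
        simp only [List.mem_append, List.mem_cons, List.not_mem_nil, or_false] at hx
        rcases hx with (rfl | rfl) | rfl
        · exact ⟨hgT2', hgM2'⟩
        · exact ⟨hgT1', hgM1'⟩
        · exact ⟨hgT', hgM'⟩) h1.symm
      (by
        simp only [List.cons_append, List.nil_append, cols, List.mem_cons, List.not_mem_nil,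
          or_false]
        rintro (h | h | h)
        · exact hn2' h.symm
        · exact hn1' h.symm
        · exact hA h.symm)
    exact hfree p hp

end Pool.Agent.RSU
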