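import Pool.Agent.RSU.Defs

/-!
# RSU-Crit (1.0h): no further edges at the gadgets

PLAN. Forced colours in a gadget (`forced`): `three` for `h0 b x h1` and `h0 a d h2` gives `c(b h0) = c(x h1) =: β`, `c(a h0) = c(d h2) =: α`.
`four` for `h0 a b x h1`: `c(h0 a) = c(b x)` (the other two cases contradict `Proper` at `h0`, at `b`: `c(a b) = c(x h1) = c(b h0)`), so
`c(b x) = α`; `four` for `h0 b a d h2` gives `c(a d) = β`.
`crit_core`: a gadget vertex `z` and `y ∈ M` not its hub: `two`. `y ∈ T`: `three` with `u = hub`, `v = y`: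
`z = a`: path `h2 d a y`: `c(h2 d) = α = c(a y)`, but `c(a h0) = α`, `y ≠ h0`; `z = b`: `h1 x b y`: `β = c(b y)`, `c(b h0) = β`;
`z = x`: `h0 b x y`: `β = c(x y)`, `c(x h1) = β`; `z = d`: `h0 a d y`: `α = c(d y)`, `c(d h2) = α`.
`crit_in`: `a x`: `three` for `h0 a x h1`: `α = β`, contradiction at `h0`; `b d`: `h0 b d h2`: `β = α`; `x d`: `h1 x d h2`: `β = α`.
`crit_two`: two disjoint gadgets with `α, β, α', β'` pairwise different (`Proper` at `h0`):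
`a a'`: `four` for `h0 a a' d' h2` (colours `α, γ, β', α'`); `a b'`: `h0 a b' x' h1` (`α, γ, α', β'`); `a x'`: `three` `h0 a x' h1` (`α = β'`);
`a d'`: `h0 a d' h2` (`α = α'`); `b b'`: `four` `h0 b b' x' h1` (`β, γ, α', β'`); `b x'`: `h0 b x' h1` (`β = β'`); `b d'`: `h0 b d' h2` (`β = α'`);
`x x'`: `four` `h1 x x' b' h0` (`β, γ, α', β'`); `x d'`: `h1 x d' h2` (`β = α'`); `d d'`: `four` `h2 d d' a' h0` (`α, γ, β', α'`);
the other pairs by symmetry. (In `four` the third alternative `γ = last colour` contradicts `Proper` at the first vertex of the second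
gadget.)
-/

set_option autoImplicit false

namespace Pool.Agent.RSU

open Pool.Agent.Helper57.Rs

variable {V : Type} {G : SimpleGraph V} {c : Sym2 V → ℕ} {T M : Set V}
  {h0 h1 h2 a b x d a' b' x' d' : V}

private theorem sw (c : Sym2 V → ℕ) (u v : V) : c s(u, v) = c s(v, u) := by rw [Sym2.eq_swap]

theorem forced (hc : Proper G c) (hcl : CL G c T M) (m0 : h0 ∈ M) (m1 : h1 ∈ M) (m2 : h2 ∈ M)
    (h01 : h0 ≠ h1) (h02 : h0 ≠ h2) (hg : Gad G h0 h1 h2 a b x d)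
    (ho : ∀ z, z = a ∨ z = b ∨ z = x ∨ z = d → z ∉ T ∧ z ∉ M) :
    c s(h0, a) = c s(d, h2) ∧ c s(h0, a) = c s(b, x) ∧ c s(h0, b) = c s(x, h1) ∧
      c s(h0, b) = c s(a, d) := by
  obtain ⟨aT, aM⟩ := ho a (Or.inl rfl)
  obtain ⟨bT, bM⟩ := ho b (Or.inr (Or.inl rfl))
  obtain ⟨xT, xM⟩ := ho x (Or.inr (Or.inr (Or.inl rfl)))
  obtain ⟨dT, dM⟩ := ho d (Or.inr (Or.inr (Or.inr rfl)))
  have e1 := hcl.three h0 h2 a d m0 (Or.inl m2) h02 aT aM dT dM hg.ad.ne hg.ah.symm hg.ad hg.dh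
  have e3 := hcl.three h0 h1 b x m0 (Or.inl m1) h01 bT bM xT xM hg.bx.ne hg.bh.symm hg.bx hg.xh
  have n0 := hc h0 a b hg.ah.symm hg.bh.symm hg.ab.ne
  have n1 := hc b a h0 hg.ab.symm hg.bh (fun h => aM (h ▸ m0))
  have n2 := hc a b h0 hg.ab hg.ah (fun h => bM (h ▸ m0))
  have s1 := sw c a b
  have s2 := sw c b h0
  have s3 := sw c a h0
  refine ⟨e1, ?_, e3, ?_⟩
  · rcases hcl.four h0 h1 a b x m0 m1 h01 aT aM bT bM xT xM hg.ab.ne hg.ax hg.bx.ne hg.ah.symm hg.ab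
      hg.bx hg.xh with h | h | h
    · exact h
    · exact absurd (h.trans e3.symm) n0
    · exfalso
      omega
  · rcases hcl.four h0 h2 b a d m0 m2 h02 bT bM aT aM dT dM hg.ab.symm.ne hg.bd hg.ad.ne hg.bh.symm
      hg.ab.symm hg.ad hg.dh with h | h | h
    · exact h
    · exfalso
      omega
    · exfalso
      omega

theorem crit_core (hc : Proper G c) (hcl : CL G c T M) (m0 : h0 ∈ M) (m1 : h1 ∈ M) (m2 : h2 ∈ M)
    (h01 : h0 ≠ h1) (h02 : h0 ≠ h2) (h12 : h1 ≠ h2) (hTM : Disjoint T M)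
    (hg : Gad G h0 h1 h2 a b x d)
    (ho : ∀ z, z = a ∨ z = b ∨ z = x ∨ z = d → z ∉ T ∧ z ∉ M) {y : V} (hy : y ∈ T ∨ y ∈ M) :
    (G.Adj a y → y = h0) ∧ (G.Adj b y → y = h0) ∧ (G.Adj x y → y = h1) ∧ (G.Adj d y → y = h2) := by
  obtain ⟨f1, f2, f3, f4⟩ := forced hc hcl m0 m1 m2 h01 h02 hg ho
  obtain ⟨aT, aM⟩ := ho a (Or.inl rfl)
  obtain ⟨bT, bM⟩ := ho b (Or.inr (Or.inl rfl))
  obtain ⟨xT, xM⟩ := ho x (Or.inr (Or.inr (Or.inl rfl)))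
  obtain ⟨dT, dM⟩ := ho d (Or.inr (Or.inr (Or.inr rfl)))
  have hd : ∀ u, u ∈ M → y ∈ T → u ≠ y := by
    intro u hu hyT h
    exact Set.disjoint_left.1 hTM hyT (h ▸ hu)
  refine ⟨fun h => ?_, fun h => ?_, fun h => ?_, fun h => ?_⟩
  · by_contra hne
    rcases hy with hy | hy
    · have e := hcl.three h2 y d a m2 (Or.inr hy) (hd h2 m2 hy) dT dM aT aM hg.ad.symm.ne hg.dh.symm
        hg.ad.symm h
      have n := hc a y h0 h hg.ah hne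
      have s1 := sw c h2 d
      have s2 := sw c h0 a
      omega
    · exact hcl.two h0 y a m0 hy (Ne.symm hne) aT aM hg.ah.symm h
  · by_contra hne
    rcases hy with hy | hy
    · have e := hcl.three h1 y x b m1 (Or.inr hy) (hd h1 m1 hy) xT xM bT bM hg.bx.symm.ne hg.xh.symm
        hg.bx.symm h
      have n := hc b y h0 h hg.bh hne
      have s1 := sw c h1 x
      have s2 := sw c h0 b
      omega
    · exact hcl.two h0 y b m0 hy (Ne.symm hne) bT bM hg.bh.symm h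
  · by_contra hne
    rcases hy with hy | hy
    · have e := hcl.three h0 y b x m0 (Or.inr hy) (hd h0 m0 hy) bT bM xT xM hg.bx.ne hg.bh.symm
        hg.bx h
      have n := hc x y h1 h hg.xh hne
      omega
    · exact hcl.two h1 y x m1 hy (Ne.symm hne) xT xM hg.xh.symm h
  · by_contra hne
    rcases hy with hy | hy
    · have e := hcl.three h0 y a d m0 (Or.inr hy) (hd h0 m0 hy) aT aM dT dM hg.ad.ne hg.ah.symm
        hg.ad h
      have n := hc d y h2 h hg.dh hne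
      omega
    · exact hcl.two h2 y d m2 hy (Ne.symm hne) dT dM hg.dh.symm h

theorem crit_in (hc : Proper G c) (hcl : CL G c T M) (m0 : h0 ∈ M) (m1 : h1 ∈ M) (m2 : h2 ∈ M)
    (h01 : h0 ≠ h1) (h02 : h0 ≠ h2) (h12 : h1 ≠ h2) (hg : Gad G h0 h1 h2 a b x d)
    (ho : ∀ z, z = a ∨ z = b ∨ z = x ∨ z = d → z ∉ T ∧ z ∉ M) :
    ¬ G.Adj a x ∧ ¬ G.Adj b d ∧ ¬ G.Adj x d := by
  obtain ⟨f1, f2, f3, f4⟩ := forced hc hcl m0 m1 m2 h01 h02 hg ho
  obtain ⟨aT, aM⟩ := ho a (Or.inl rfl)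
  obtain ⟨bT, bM⟩ := ho b (Or.inr (Or.inl rfl))
  obtain ⟨xT, xM⟩ := ho x (Or.inr (Or.inr (Or.inl rfl)))
  obtain ⟨dT, dM⟩ := ho d (Or.inr (Or.inr (Or.inr rfl)))
  have n0 := hc h0 a b hg.ah.symm hg.bh.symm hg.ab.ne
  refine ⟨fun h => ?_, fun h => ?_, fun h => ?_⟩
  · have e := hcl.three h0 h1 a x m0 (Or.inl m1) h01 aT aM xT xM hg.ax hg.ah.symm h hg.xh
    omega
  · have e := hcl.three h0 h2 b d m0 (Or.inl m2) h02 bT bM dT dM hg.bd hg.bh.symm h hg.dh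
    omega
  · have e := hcl.three h1 h2 x d m1 (Or.inl m2) h12 xT xM dT dM hg.xd hg.xh.symm h hg.dh
    have s1 := sw c h1 x
    omega

private theorem half (hc : Proper G c) (hcl : CL G c T M) (m0 : h0 ∈ M) (m1 : h1 ∈ M) (m2 : h2 ∈ M)
    (h01 : h0 ≠ h1) (h02 : h0 ≠ h2) (h12 : h1 ≠ h2) (hg : Gad G h0 h1 h2 a b x d)
    (ho : ∀ z, z = a ∨ z = b ∨ z = x ∨ z = d → z ∉ T ∧ z ∉ M) (hg' : Gad G h0 h1 h2 a' b' x' d')
    (ho' : ∀ z, z = a' ∨ z = b' ∨ z = x' ∨ z = d' → z ∉ T ∧ z ∉ M)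
    (hne : ∀ z z', z = a ∨ z = b ∨ z = x ∨ z = d → z' = a' ∨ z' = b' ∨ z' = x' ∨ z' = d' → z ≠ z') :
    (¬ G.Adj a a' ∧ ¬ G.Adj a b' ∧ ¬ G.Adj a x' ∧ ¬ G.Adj a d') ∧
    (¬ G.Adj b b' ∧ ¬ G.Adj b x' ∧ ¬ G.Adj b d') ∧ (¬ G.Adj x x' ∧ ¬ G.Adj x d') ∧
    ¬ G.Adj d d' := by
  obtain ⟨f1, f2, f3, f4⟩ := forced hc hcl m0 m1 m2 h01 h02 hg ho
  obtain ⟨g1, g2, g3, g4⟩ := forced hc hcl m0 m1 m2 h01 h02 hg' ho'
  have ia : a = a ∨ a = b ∨ a = x ∨ a = d := Or.inl rfl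
  have ib : b = a ∨ b = b ∨ b = x ∨ b = d := Or.inr (Or.inl rfl)
  have ix : x = a ∨ x = b ∨ x = x ∨ x = d := Or.inr (Or.inr (Or.inl rfl))
  have id : d = a ∨ d = b ∨ d = x ∨ d = d := Or.inr (Or.inr (Or.inr rfl))
  have ja : a' = a' ∨ a' = b' ∨ a' = x' ∨ a' = d' := Or.inl rfl
  have jb : b' = a' ∨ b' = b' ∨ b' = x' ∨ b' = d' := Or.inr (Or.inl rfl)
  have jx : x' = a' ∨ x' = b' ∨ x' = x' ∨ x' = d' := Or.inr (Or.inr (Or.inl rfl))
  have jd : d' = a' ∨ d' = b' ∨ d' = x' ∨ d' = d' := Or.inr (Or.inr (Or.inr rfl))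
  obtain ⟨aT, aM⟩ := ho a ia
  obtain ⟨bT, bM⟩ := ho b ib
  obtain ⟨xT, xM⟩ := ho x ix
  obtain ⟨dT, dM⟩ := ho d id
  obtain ⟨aT', aM'⟩ := ho' a' ja
  obtain ⟨bT', bM'⟩ := ho' b' jb
  obtain ⟨xT', xM'⟩ := ho' x' jx
  obtain ⟨dT', dM'⟩ := ho' d' jd
  have n1 := hc h0 a a' hg.ah.symm hg'.ah.symm (hne a a' ia ja)
  have n2 := hc h0 a b' hg.ah.symm hg'.bh.symm (hne a b' ia jb)
  have n3 := hc h0 b a' hg.bh.symm hg'.ah.symm (hne b a' ib ja)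
  have n4 := hc h0 b b' hg.bh.symm hg'.bh.symm (hne b b' ib jb)
  refine ⟨⟨fun h => ?_, fun h => ?_, fun h => ?_, fun h => ?_⟩,
    ⟨fun h => ?_, fun h => ?_, fun h => ?_⟩, ⟨fun h => ?_, fun h => ?_⟩, fun h => ?_⟩
  · have e := hcl.four h0 h2 a a' d' m0 m2 h02 aT aM aT' aM' dT' dM' h.ne (hne a d' ia jd)
      hg'.ad.ne hg.ah.symm h hg'.ad hg'.dh
    have n := hc a' a h0 h.symm hg'.ah (fun h => aM (h ▸ m0))
    have s1 := sw c a' a
    have s2 := sw c a' h0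
    omega
  · have e := hcl.four h0 h1 a b' x' m0 m1 h01 aT aM bT' bM' xT' xM' h.ne (hne a x' ia jx)
      hg'.bx.ne hg.ah.symm h hg'.bx hg'.xh
    have n := hc b' a h0 h.symm hg'.bh (fun h => aM (h ▸ m0))
    have s1 := sw c b' a
    have s2 := sw c b' h0
    omega
  · have e := hcl.three h0 h1 a x' m0 (Or.inl m1) h01 aT aM xT' xM' h.ne hg.ah.symm h hg'.xh
    omega
  · have e := hcl.three h0 h2 a d' m0 (Or.inl m2) h02 aT aM dT' dM' h.ne hg.ah.symm h hg'.dh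
    omega
  · have e := hcl.four h0 h1 b b' x' m0 m1 h01 bT bM bT' bM' xT' xM' h.ne (hne b x' ib jx)
      hg'.bx.ne hg.bh.symm h hg'.bx hg'.xh
    have n := hc b' b h0 h.symm hg'.bh (fun h => bM (h ▸ m0))
    have s1 := sw c b' b
    have s2 := sw c b' h0
    omega
  · have e := hcl.three h0 h1 b x' m0 (Or.inl m1) h01 bT bM xT' xM' h.ne hg.bh.symm h hg'.xh
    omega
  · have e := hcl.three h0 h2 b d' m0 (Or.inl m2) h02 bT bM dT' dM' h.ne hg.bh.symm h hg'.dh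
    omega
  · have e := hcl.four h1 h0 x x' b' m1 m0 h01.symm xT xM xT' xM' bT' bM' h.ne (hne x b' ix jb)
      hg'.bx.symm.ne hg.xh.symm h hg'.bx.symm hg'.bh
    have n := hc x' x h1 h.symm hg'.xh (fun h => xM (h ▸ m1))
    have s1 := sw c x' x
    have s2 := sw c h1 x
    have s3 := sw c x' b'
    have s4 := sw c b' h0
    omega
  · have e := hcl.three h1 h2 x d' m1 (Or.inl m2) h12 xT xM dT' dM' h.ne hg.xh.symm h hg'.dh
    have s2 := sw c h1 x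
    omega
  · have e := hcl.four h2 h0 d d' a' m2 m0 h02.symm dT dM dT' dM' aT' aM' h.ne (hne d a' id ja)
      hg'.ad.symm.ne hg.dh.symm h hg'.ad.symm hg'.ah
    have n := hc d' d h2 h.symm hg'.dh (fun h => dM (h ▸ m2))
    have s1 := sw c d' d
    have s2 := sw c h2 d
    have s3 := sw c d' a'
    have s4 := sw c a' h0
    omega

theorem crit_two (hc : Proper G c) (hcl : CL G c T M) (m0 : h0 ∈ M) (m1 : h1 ∈ M) (m2 : h2 ∈ M)
    (h01 : h0 ≠ h1) (h02 : h0 ≠ h2) (h12 : h1 ≠ h2) (hg : Gad G h0 h1 h2 a b x d)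
    (ho : ∀ z, z = a ∨ z = b ∨ z = x ∨ z = d → z ∉ T ∧ z ∉ M) (hg' : Gad G h0 h1 h2 a' b' x' d')
    (ho' : ∀ z, z = a' ∨ z = b' ∨ z = x' ∨ z = d' → z ∉ T ∧ z ∉ M)
    (hne : ∀ z z', z = a ∨ z = b ∨ z = x ∨ z = d → z' = a' ∨ z' = b' ∨ z' = x' ∨ z' = d' → z ≠ z') :
    ∀ z z', z = a ∨ z = b ∨ z = x ∨ z = d → z' = a' ∨ z' = b' ∨ z' = x' ∨ z' = d' →
      ¬ G.Adj z z' := by
  obtain ⟨⟨p1, p2, p3, p4⟩, ⟨p5, p6, p7⟩, ⟨p8, p9⟩, p10⟩ :=
    half hc hcl m0 m1 m2 h01 h02 h12 hg ho hg' ho' hne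
  obtain ⟨⟨q1, q2, q3, q4⟩, ⟨q5, q6, q7⟩, ⟨q8, q9⟩, q10⟩ :=
    half hc hcl m0 m1 m2 h01 h02 h12 hg' ho' hg ho (fun z z' hz hz' => (hne z' z hz' hz).symm)
  intro z z' hz hz' h
  rcases hz with rfl | rfl | rfl | rfl <;> rcases hz' with rfl | rfl | rfl | rfl <;>
    first
      | exact absurd h (by assumption)
      | exact absurd h.symm (by assumption)

end Pool.Agent.RSU
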