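import Pool.Agent.RSU.Defs

/-!
# RSU-Cyc (0.5h): a rainbow cycle from a list

PLAN. `p i = l[i.val]` (`ZMod k` with `NeZero k`). Adjacency and colours of consecutive elements: for `i.val + 1 < k`, `(i + 1).val = i.val + 1`
(`ZMod.val_add_one_of_lt` or similar) and `cols c l` has the element `c s(l[i], l[i+1])` at the place `i` (prove
`(cols c l).length = l.length - 1` and `(cols c l)[i] = c s(l[i], l[i+1])` by induction); for `i.val + 1 = k`, `i + 1 = 0`, this is the closing
edge. Injectivity of `p`: `Nodup`. Injectivity of the colours: `cols c l` is `Nodup` and the closing colour is not in it.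
-/

set_option autoImplicit false

namespace Pool.Agent.RSU

open Pool.Agent.Helper57.Rs

variable {V : Type}

/-- colours of a concatenation -/
theorem cols_append (c : Sym2 V → ℕ) (l : List V) (u v : V) (l' : List V) :
    cols c (l ++ u :: v :: l') = cols c (l ++ [u]) ++ c s(u, v) :: cols c (v :: l') := by
  induction l with
  | nil => rfl
  | cons a l ih =>
    cases l with
    | nil => rfl
    | cons b l =>
      have h1 : cols c ((a :: b :: l) ++ u :: v :: l') =
          c s(a, b) :: cols c ((b :: l) ++ u :: v :: l') := rfl
      have h2 : cols c ((a :: b :: l) ++ [u]) = c s(a, b) :: cols c ((b :: l) ++ [u]) := rfl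
      rw [h1, h2, ih]
      rfl

theorem cols_mem {c : Sym2 V → ℕ} {l : List V} {y : ℕ} (h : y ∈ cols c l) :
    ∃ a ∈ l, ∃ b ∈ l, y = c s(a, b) := by
  induction l with
  | nil => exact absurd h (by simp [cols])
  | cons a l ih =>
    cases l with
    | nil => exact absurd h (by simp [cols])
    | cons b l =>
      have h1 : cols c (a :: b :: l) = c s(a, b) :: cols c (b :: l) := rfl
      rw [h1, List.mem_cons] at h
      rcases h with h | h
      · exact ⟨a, by simp, b, by simp, h⟩
      · obtain ⟨a', ha', b', hb', hy⟩ := ih h
        exact ⟨a', List.mem_cons_of_mem _ ha', b', List.mem_cons_of_mem _ hb', hy⟩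

private theorem cols_length (c : Sym2 V → ℕ) (a : V) (l : List V) :
    (cols c (a :: l)).length = l.length := by
  induction l generalizing a with
  | nil => rfl
  | cons b l ih =>
    have h1 : cols c (a :: b :: l) = c s(a, b) :: cols c (b :: l) := rfl
    rw [h1, List.length_cons, ih b, List.length_cons]

private theorem cols_get (c : Sym2 V → ℕ) (L : List V) (n : ℕ) (hn : n + 1 < L.length)
    (hn' : n < (cols c L).length) : (cols c L)[n] = c s(L[n], L[n + 1]) := by
  induction L generalizing n with
  | nil => exact absurd hn (by simp)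
  | cons a l ih =>
    cases l with
    | nil => exact absurd hn (by simp)
    | cons b l =>
      cases n with
      | zero => rfl
      | succ n =>
        have h3 : n + 1 < (b :: l).length := by
          simp only [List.length_cons] at hn ⊢
          omega
        have h4 : n < (cols c (b :: l)).length := by
          rw [cols_length]
          simp only [List.length_cons] at h3
          omega
        exact ih n h3 h4

theorem cycle_of_list {G : SimpleGraph V} {c : Sym2 V → ℕ} {k : ℕ} (hk : 3 ≤ k) {u w : V}
    {l : List V} (h : Rb G c (u :: (l ++ [w]))) (hl : l.length + 2 = k) (hadj : G.Adj w u)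
    (hcol : c s(w, u) ∉ cols c (u :: (l ++ [w]))) : ∃ p : ZMod k → V, RainbowCycle k G c p := by
  have : NeZero k := ⟨by omega⟩
  have hlen : (u :: (l ++ [w])).length = k := by
    simp only [List.length_cons, List.length_append, List.length_nil]
    omega
  have hclen : (cols c (u :: (l ++ [w]))).length + 1 = k := by
    rw [cols_length]
    simp only [List.length_append, List.length_cons, List.length_nil]
    omega
  have hv : ∀ i : ZMod k, i.val < (u :: (l ++ [w])).length := by
    intro i
    rw [hlen]
    exact ZMod.val_lt i
  have hsucc : ∀ i : ZMod k, i.val + 1 < k → (i + 1).val = i.val + 1 := by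
    intro i hi
    rw [ZMod.val_add, ZMod.val_one'' (by omega), Nat.mod_eq_of_lt hi]
  have hlast : ∀ i : ZMod k, i.val + 1 = k → (i + 1).val = 0 := by
    intro i hi
    rw [ZMod.val_add, ZMod.val_one'' (by omega), hi, Nat.mod_self]
  have hfirst : ∀ (n : ℕ) (hn : n < (u :: (l ++ [w])).length), n = 0 →
      (u :: (l ++ [w]))[n] = u := by
    intro n hn h0
    subst h0
    rfl
  have hend : ∀ (n : ℕ) (hn : n < (u :: (l ++ [w])).length), n + 1 = k →
      (u :: (l ++ [w]))[n] = w := by
    intro n hn h0
    have h1 : n = l.length + 1 := by omega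
    subst h1
    simp
  have hcolour : ∀ i : ZMod k, (i.val + 1 < k ∧ ∃ hi : i.val < (cols c (u :: (l ++ [w]))).length,
      c s((u :: (l ++ [w]))[i.val]'(hv i), (u :: (l ++ [w]))[(i + 1).val]'(hv (i + 1))) =
        (cols c (u :: (l ++ [w])))[i.val]) ∨
      (i.val + 1 = k ∧
      c s((u :: (l ++ [w]))[i.val]'(hv i), (u :: (l ++ [w]))[(i + 1).val]'(hv (i + 1))) =
        c s(w, u)) := by
    intro i
    have hlt := ZMod.val_lt i
    by_cases hi : i.val + 1 < k
    · left
      refine ⟨hi, by omega, ?_⟩
      rw [cols_get c _ i.val (by rw [hlen]; exact hi) (by omega)]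
      have h2 := hsucc i hi
      congr 2
      simp only [h2]
    · right
      have hi' : i.val + 1 = k := by omega
      refine ⟨hi', ?_⟩
      rw [hend i.val (hv i) hi', hfirst (i + 1).val (hv (i + 1)) (hlast i hi')]
  refine ⟨fun i => (u :: (l ++ [w]))[i.val]'(hv i), ?_, ?_, ?_⟩
  · intro i j hij
    apply ZMod.val_injective k
    exact (List.Nodup.getElem_inj_iff h.nodup).mp hij
  · intro i
    have hlt := ZMod.val_lt i
    by_cases hi : i.val + 1 < k
    · have h1 := (List.isChain_iff_getElem.mp h.chain) i.val (by rw [hlen]; exact hi)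
      have h2 := hsucc i hi
      simp only [h2]
      exact h1
    · have hi' : i.val + 1 = k := by omega
      have h1 := hend i.val (hv i) hi'
      have h2 := hfirst (i + 1).val (hv (i + 1)) (hlast i hi')
      show G.Adj ((u :: (l ++ [w]))[i.val]'(hv i)) ((u :: (l ++ [w]))[(i + 1).val]'(hv (i + 1)))
      rw [h1, h2]
      exact hadj
  · intro i j hij
    replace hij : c s((u :: (l ++ [w]))[i.val]'(hv i), (u :: (l ++ [w]))[(i + 1).val]'(hv (i + 1)))
      = c s((u :: (l ++ [w]))[j.val]'(hv j), (u :: (l ++ [w]))[(j + 1).val]'(hv (j + 1))) := hij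
    apply ZMod.val_injective k
    rcases hcolour i with ⟨hi, hi', hci⟩ | ⟨hi, hci⟩
    · rcases hcolour j with ⟨hj, hj', hcj⟩ | ⟨hj, hcj⟩
      · rw [hci, hcj] at hij
        exact (List.Nodup.getElem_inj_iff h.rain).mp hij
      · rw [hci, hcj] at hij
        exact absurd (hij ▸ List.getElem_mem hi') hcol
    · rcases hcolour j with ⟨hj, hj', hcj⟩ | ⟨hj, hcj⟩
      · rw [hci, hcj] at hij
        exact absurd (hij ▸ List.getElem_mem hj') hcol
      · omega

end Pool.Agent.RSU
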