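import Mathlib
import Pool.Agent.Helper57.Rs.Final

/-!
# RSU: an upper bound for the rainbow saturation number of long cycles (MP_2a1abf_co)

The graph `G0 t M m`: a core `K_t ∨ (M + 3) K_1` with three marked vertices (hubs) `h0, h1, h2` in the
independent part, and `m` gadgets, each a path `d a b x` (indices `3, 0, 1, 2`) with `a, b ~ h0`, `x ~ h1`,
`d ~ h2`.
-/

set_option autoImplicit false

namespace Pool.Agent.RSU

open Pool.Agent.Helper57.Rs

/-- vertices of the graph: core (clique part, independent part), gadgets -/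
abbrev W (t M m : ℕ) : Type := (Fin t ⊕ Fin (M + 3)) ⊕ (Fin m × Fin 4)

/-- the hub of a gadget vertex -/
def hub : Fin 4 → ℕ
  | 0 => 0
  | 1 => 0
  | 2 => 1
  | 3 => 2

/-- the edges of a gadget -/
def ed : Fin 4 → Fin 4 → Bool
  | 0, 1 => true
  | 1, 0 => true
  | 1, 2 => true
  | 2, 1 => true
  | 0, 3 => true
  | 3, 0 => true
  | _, _ => false

theorem ed_symm : ∀ j j' : Fin 4, ed j j' = true → ed j' j = true := by decide

theorem ed_irrefl : ∀ j : Fin 4, ¬ ed j j = true := by decide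

/-- adjacency of `G0` -/
def adj0 (t M m : ℕ) : W t M m → W t M m → Prop
  | Sum.inl (Sum.inl x), Sum.inl (Sum.inl y) => x ≠ y
  | Sum.inl (Sum.inl _), Sum.inl (Sum.inr _) => True
  | Sum.inl (Sum.inr _), Sum.inl (Sum.inl _) => True
  | Sum.inl (Sum.inr _), Sum.inl (Sum.inr _) => False
  | Sum.inl (Sum.inl _), Sum.inr _ => False
  | Sum.inr _, Sum.inl (Sum.inl _) => False
  | Sum.inl (Sum.inr y), Sum.inr z => (y : ℕ) = hub z.2
  | Sum.inr z, Sum.inl (Sum.inr y) => (y : ℕ) = hub z.2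
  | Sum.inr z, Sum.inr z' => z.1 = z'.1 ∧ ed z.2 z'.2 = true

theorem adj0_symm (t M m : ℕ) : ∀ u v, adj0 t M m u v → adj0 t M m v u := by
  rintro ((x | x) | ⟨i, j⟩) ((y | y) | ⟨i', j'⟩) h
  · exact Ne.symm h
  · exact trivial
  · exact h
  · exact trivial
  · exact h
  · exact h
  · exact h
  · exact h
  · exact ⟨h.1.symm, ed_symm _ _ h.2⟩

theorem adj0_irrefl (t M m : ℕ) : ∀ u, ¬ adj0 t M m u u := by
  rintro ((x | x) | ⟨i, j⟩) h
  · exact h rfl
  · exact h
  · exact ed_irrefl _ h.2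

/-- the graph -/
def G0 (t M m : ℕ) : SimpleGraph (W t M m) where
  Adj := adj0 t M m
  symm := ⟨adj0_symm t M m⟩
  loopless := ⟨adj0_irrefl t M m⟩

section abstract

variable {V : Type}

/-- colours of the edges of a walk -/
def cols (c : Sym2 V → ℕ) : List V → List ℕ
  | a :: b :: l => c s(a, b) :: cols c (b :: l)
  | _ => []

/-- rainbow paths -/
structure Rb (G : SimpleGraph V) (c : Sym2 V → ℕ) (l : List V) : Prop where
  chain : l.IsChain G.Adj
  nodup : l.Nodup
  rain : (cols c l).Nodup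

/-- the consequences of the absence of rainbow cycles through the core `T ∪ M` for short paths
outside the core between vertices of the core -/
structure CL (G : SimpleGraph V) (c : Sym2 V → ℕ) (T M : Set V) : Prop where
  two : ∀ u v g, u ∈ M → v ∈ M → u ≠ v → g ∉ T → g ∉ M → G.Adj u g → G.Adj g v → False
  three : ∀ u v g g', u ∈ M → (v ∈ M ∨ v ∈ T) → u ≠ v → g ∉ T → g ∉ M → g' ∉ T → g' ∉ M → g ≠ g' →
    G.Adj u g → G.Adj g g' → G.Adj g' v → c s(u, g) = c s(g', v)
  four : ∀ u v g g' g'', u ∈ M → v ∈ M → u ≠ v → g ∉ T → g ∉ M → g' ∉ T → g' ∉ M → g'' ∉ T → g'' ∉ M →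
    g ≠ g' → g ≠ g'' → g' ≠ g'' → G.Adj u g → G.Adj g g' → G.Adj g' g'' → G.Adj g'' v →
    c s(u, g) = c s(g', g'') ∨ c s(u, g) = c s(g'', v) ∨ c s(g, g') = c s(g'', v)

/-- a gadget `d a b x` with hubs `h0, h0, h1, h2` (of `a, b, x, d`) -/
structure Gad (G : SimpleGraph V) (h0 h1 h2 a b x d : V) : Prop where
  ah : G.Adj a h0
  bh : G.Adj b h0
  xh : G.Adj x h1
  dh : G.Adj d h2
  ab : G.Adj a b
  bx : G.Adj b x
  ad : G.Adj a d
  ax : a ≠ x
  bd : b ≠ d
  xd : x ≠ d

end abstract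

end Pool.Agent.RSU
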