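import Pool.Agent.RSU.Defs

/-!
# RSU-Free (1.4h): the graph `G0` has a proper colouring without a rainbow `C_k`

PLAN. Colouring `c0` (`Sym2.lift` of a symmetric function): two core vertices `u, v`: `3 m + (Fintype.equivFin (Sym2 (core))) s(u, v)`; gadget vertex
`(i, j)` and core vertex: `3 i` for `j = 0, 3`, `3 i + 1` for `j = 1, 2`; `(i, j), (i, j')`: `3 i + 2` for `{0, 1}`, `3 i` for `{1, 2}`, `3 i + 1` for `{0, 3}`,
everything else `0`. `Proper`: case analysis.
No rainbow cycle `p`: let `E x y` mean `∃ i, (x = p i ∧ y = p (i + 1)) ∨ (x = p (i + 1) ∧ y = p i)`. (1) every `p i` has two different `E`-neighbours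
`p (i - 1), p (i + 1)`, and no others; (2) `E x y`, `E x' y'` with equal colours implies `s(x, y) = s(x', y')`. The vertex `x` (index 2): its neighbours
are `b` and `h1`, so `E x b`, `E x h1` (colour `3 i + 1`); `b` has a second `E`-neighbour, not `h0` (colour `3 i + 1` again), so `a`; the second
`E`-neighbour of `a` is `h0` (colour `3 i` = colour of `b x`) or `d` (colour `3 i + 1`): contradiction. In the same way `d` is not on the
cycle. Then `a` on the cycle has the `E`-neighbours `b, h0`, `b` has `a, h0`: `{a, b, h0}` is closed under `E` (the two `E`-neighbours of `h0`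
are `a, b`), so all `p i` are in it and `k ≤ 3`. `b` on the cycle: `a` is its `E`-neighbour. So all `p i` are in the core. If `p i` is in
the independent part, `p (i + 1)` is in the clique part: the number of `i` with `p i` independent is at most `t` (`i ↦ p (i + 1)` is
injective), and the number of the other `i` is at most `t`: `k ≤ 2 t`, contradiction.
-/

set_option autoImplicit false

namespace Pool.Agent.RSU

open Pool.Agent.Helper57.Rs

/-! ### edges of a cycle -/

section cyc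

variable {V : Type} {k : ℕ}

private def EE (p : ZMod k → V) (x y : V) : Prop :=
  ∃ i, (x = p i ∧ y = p (i + 1)) ∨ (x = p (i + 1) ∧ y = p i)

private lemma EE.symm {p : ZMod k → V} {x y : V} (h : EE p x y) : EE p y x := by
  obtain ⟨i, h | h⟩ := h
  · exact ⟨i, Or.inr ⟨h.2, h.1⟩⟩
  · exact ⟨i, Or.inl ⟨h.2, h.1⟩⟩

private lemma EE.adj {G : SimpleGraph V} {c : Sym2 V → ℕ} {p : ZMod k → V}
    (hp : RainbowCycle k G c p) {x y : V} (h : EE p x y) : G.Adj x y := by
  obtain ⟨i, ⟨rfl, rfl⟩ | ⟨rfl, rfl⟩⟩ := h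
  · exact hp.2.1 i
  · exact (hp.2.1 i).symm

private lemma EE.on {p : ZMod k → V} {x y : V} (h : EE p x y) : ∃ i, p i = y := by
  obtain ⟨i, h | h⟩ := h
  · exact ⟨i + 1, h.2.symm⟩
  · exact ⟨i, h.2.symm⟩

private lemma EE.col {G : SimpleGraph V} {c : Sym2 V → ℕ} {p : ZMod k → V}
    (hp : RainbowCycle k G c p) {x y x' y' : V} (h : EE p x y) (h' : EE p x' y')
    (hc : c s(x, y) = c s(x', y')) : s(x, y) = s(x', y') := by
  obtain ⟨i, hi⟩ := h
  obtain ⟨j, hj⟩ := h'
  have e1 : s(x, y) = s(p i, p (i + 1)) := by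
    rcases hi with ⟨rfl, rfl⟩ | ⟨rfl, rfl⟩
    · rfl
    · exact Sym2.eq_swap
  have e2 : s(x', y') = s(p j, p (j + 1)) := by
    rcases hj with ⟨rfl, rfl⟩ | ⟨rfl, rfl⟩
    · rfl
    · exact Sym2.eq_swap
  rw [e1, e2] at hc ⊢
  have := hp.2.2 hc
  rw [this]

private lemma two_ne (hk : 4 ≤ k) : (2 : ZMod k) ≠ 0 := by
  intro h
  have h1 : ((2 : ℕ) : ZMod k) = 0 := by exact_mod_cast h
  rw [ZMod.natCast_eq_zero_iff] at h1
  have := Nat.le_of_dvd (by norm_num) h1
  omega

private lemma three_ne (hk : 4 ≤ k) : (3 : ZMod k) ≠ 0 := by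
  intro h
  have h1 : ((3 : ℕ) : ZMod k) = 0 := by exact_mod_cast h
  rw [ZMod.natCast_eq_zero_iff] at h1
  have := Nat.le_of_dvd (by norm_num) h1
  omega

private lemma EE.two {G : SimpleGraph V} {c : Sym2 V → ℕ} {p : ZMod k → V} (hk : 4 ≤ k)
    (hp : RainbowCycle k G c p) {x : V} (h : ∃ i, p i = x) (y : V) : ∃ z, z ≠ y ∧ EE p x z := by
  obtain ⟨i, rfl⟩ := h
  by_cases hy : p (i + 1) = y
  · refine ⟨p (i - 1), ?_, i - 1, Or.inr ⟨by rw [sub_add_cancel], rfl⟩⟩
    rintro h
    rw [← hy] at h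
    have h1 := hp.1 h
    apply two_ne hk
    linear_combination -h1
  · exact ⟨p (i + 1), hy, i, Or.inl ⟨rfl, rfl⟩⟩

end cyc

/-! ### the colouring -/

private def g1 : Fin 4 → ℕ
  | 0 => 0
  | 1 => 1
  | 2 => 1
  | 3 => 0

private def gg : Fin 4 → Fin 4 → ℕ
  | 0, 1 => 2
  | 1, 0 => 2
  | 1, 2 => 0
  | 2, 1 => 0
  | 0, 3 => 1
  | 3, 0 => 1
  | _, _ => 0

private lemma gg_symm : ∀ j j' : Fin 4, gg j j' = gg j' j := by decide
private lemma gg_le : ∀ j j' : Fin 4, gg j j' ≤ 2 := by decide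
private lemma g1_le : ∀ j : Fin 4, g1 j ≤ 1 := by decide
private lemma g1_hub : ∀ j j' : Fin 4, g1 j = g1 j' → hub j = hub j' → j = j' := by decide
private lemma g1_gg : ∀ j j' : Fin 4, ed j j' = true → g1 j ≠ gg j j' := by decide
private lemma gg_gg : ∀ j j' j'' : Fin 4, ed j j' = true → ed j j'' = true →
    gg j j' = gg j j'' → j' = j'' := by decide

private def col {t M m : ℕ} (ι : Sym2 (Fin t ⊕ Fin (M + 3)) → ℕ) : W t M m → W t M m → ℕ
  | Sum.inl u, Sum.inl v => 3 * m + ι s(u, v)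
  | Sum.inl _, Sum.inr z => 3 * (z.1 : ℕ) + g1 z.2
  | Sum.inr z, Sum.inl _ => 3 * (z.1 : ℕ) + g1 z.2
  | Sum.inr z, Sum.inr z' => 3 * (min (z.1 : ℕ) (z'.1 : ℕ)) + gg z.2 z'.2

private lemma col_symm {t M m : ℕ} (ι : Sym2 (Fin t ⊕ Fin (M + 3)) → ℕ) :
    ∀ u v : W t M m, col ι u v = col ι v u := by
  rintro (u | z) (v | z')
  · simp only [col]
    rw [Sym2.eq_swap]
  · rfl
  · rfl
  · simp only [col]
    rw [min_comm, gg_symm]

private def c0 {t M m : ℕ} (ι : Sym2 (Fin t ⊕ Fin (M + 3)) → ℕ) : Sym2 (W t M m) → ℕ :=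
  Sym2.lift ⟨col ι, col_symm ι⟩

private lemma c0_mk {t M m : ℕ} (ι : Sym2 (Fin t ⊕ Fin (M + 3)) → ℕ) (u v : W t M m) :
    c0 ι s(u, v) = col ι u v := rfl

private lemma proper_c0 {t M m : ℕ} {ι : Sym2 (Fin t ⊕ Fin (M + 3)) → ℕ}
    (hι : Function.Injective ι) : Proper (G0 t M m) (c0 ι) := by
  intro u v w h1 h2 h3 h4
  rw [c0_mk, c0_mk] at h4
  change adj0 t M m u v at h1
  change adj0 t M m u w at h2
  rcases u with u | ⟨i, j⟩
  · rcases v with v | ⟨i', j'⟩
    · rcases w with w | ⟨i'', j''⟩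
      · simp only [col] at h4
        have h5 := hι (Nat.add_left_cancel h4)
        rw [Sym2.congr_right] at h5
        exact h3 (congrArg Sum.inl h5)
      · simp only [col] at h4
        have := i''.2
        have := g1_le j''
        omega
    · rcases w with w | ⟨i'', j''⟩
      · simp only [col] at h4
        have := i'.2
        have := g1_le j'
        omega
      · rcases u with u | u
        · exact h1
        · simp only [col] at h4
          have e1 := g1_le j'
          have e2 := g1_le j''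
          have e3 : (i' : ℕ) = i'' := by omega
          have e4 : g1 j' = g1 j'' := by omega
          have e5 : (u : ℕ) = hub j' := h1
          have e6 : (u : ℕ) = hub j'' := h2
          have e7 := g1_hub _ _ e4 (e5.symm.trans e6)
          apply h3
          rw [e7, Fin.ext e3]
  · rcases v with (v | v) | ⟨i', j'⟩
    · exact h1
    · rcases w with (w | w) | ⟨i'', j''⟩
      · exact h2
      · have e5 : (v : ℕ) = hub j := h1
        have e6 : (w : ℕ) = hub j := h2
        apply h3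
        rw [Fin.ext (e5.trans e6.symm)]
      · obtain ⟨e1, e2⟩ : i = i'' ∧ ed j j'' = true := h2
        simp only [col] at h4
        rw [e1, min_self] at h4
        exact g1_gg _ _ e2 (by omega)
    · obtain ⟨e1, e2⟩ : i = i' ∧ ed j j' = true := h1
      rcases w with (w | w) | ⟨i'', j''⟩
      · exact h2
      · simp only [col] at h4
        rw [e1, min_self] at h4
        exact g1_gg _ _ e2 (by omega)
      · obtain ⟨e3, e4⟩ : i = i'' ∧ ed j j'' = true := h2
        simp only [col] at h4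
        rw [← e1, ← e3, min_self] at h4
        have e5 := gg_gg _ _ _ e2 e4 (by omega)
        apply h3
        rw [e5, ← e1, ← e3]

/-! ### neighbours -/

private def hb {t M m : ℕ} (n : Fin 3) : W t M m := Sum.inl (Sum.inr ⟨n, by omega⟩)

private def gv {t M m : ℕ} (i : Fin m) (j : Fin 4) : W t M m := Sum.inr (i, j)

private lemma adj_g {t M m : ℕ} {i : Fin m} {j : Fin 4} {y : W t M m}
    (h : (G0 t M m).Adj (gv i j) y) :
    (∃ y' : Fin (M + 3), y = Sum.inl (Sum.inr y') ∧ (y' : ℕ) = hub j) ∨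
      ∃ j', ed j j' = true ∧ y = gv i j' := by
  change adj0 t M m (Sum.inr (i, j)) y at h
  rcases y with (y | y) | ⟨i', j'⟩
  · exact absurd h id
  · exact Or.inl ⟨y, rfl, h⟩
  · obtain ⟨e1, e2⟩ : i = i' ∧ ed j j' = true := h
    exact Or.inr ⟨j', e2, by rw [e1]; rfl⟩

private lemma ed0 : ∀ j : Fin 4, ed 0 j = true → j = 1 ∨ j = 3 := by decide
private lemma ed1 : ∀ j : Fin 4, ed 1 j = true → j = 0 ∨ j = 2 := by decide
private lemma ed2 : ∀ j : Fin 4, ed 2 j = true → j = 1 := by decide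
private lemma ed3 : ∀ j : Fin 4, ed 3 j = true → j = 0 := by decide

private lemma adj_a {t M m : ℕ} {i : Fin m} {y : W t M m} (h : (G0 t M m).Adj (gv i 0) y) :
    y = hb 0 ∨ y = gv i 1 ∨ y = gv i 3 := by
  rcases adj_g h with ⟨y', rfl, hy⟩ | ⟨j', hj, rfl⟩
  · left
    unfold hb
    congr 2
    exact Fin.ext hy
  · rcases ed0 j' hj with rfl | rfl
    · exact Or.inr (Or.inl rfl)
    · exact Or.inr (Or.inr rfl)

private lemma adj_b {t M m : ℕ} {i : Fin m} {y : W t M m} (h : (G0 t M m).Adj (gv i 1) y) :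
    y = hb 0 ∨ y = gv i 0 ∨ y = gv i 2 := by
  rcases adj_g h with ⟨y', rfl, hy⟩ | ⟨j', hj, rfl⟩
  · left
    unfold hb
    congr 2
    exact Fin.ext hy
  · rcases ed1 j' hj with rfl | rfl
    · exact Or.inr (Or.inl rfl)
    · exact Or.inr (Or.inr rfl)

private lemma adj_x {t M m : ℕ} {i : Fin m} {y : W t M m} (h : (G0 t M m).Adj (gv i 2) y) :
    y = hb 1 ∨ y = gv i 1 := by
  rcases adj_g h with ⟨y', rfl, hy⟩ | ⟨j', hj, rfl⟩
  · left
    unfold hb
    congr 2
    exact Fin.ext hy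
  · rw [ed2 j' hj]
    exact Or.inr rfl

private lemma adj_d {t M m : ℕ} {i : Fin m} {y : W t M m} (h : (G0 t M m).Adj (gv i 3) y) :
    y = hb 2 ∨ y = gv i 0 := by
  rcases adj_g h with ⟨y', rfl, hy⟩ | ⟨j', hj, rfl⟩
  · left
    unfold hb
    congr 2
    exact Fin.ext hy
  · rw [ed3 j' hj]
    exact Or.inr rfl

private lemma c_gh {t M m : ℕ} (ι : Sym2 (Fin t ⊕ Fin (M + 3)) → ℕ) (i : Fin m) (j : Fin 4)
    (n : Fin 3) : c0 ι s(gv i j, (hb n : W t M m)) = 3 * (i : ℕ) + g1 j := rfl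

private lemma c_gg {t M m : ℕ} (ι : Sym2 (Fin t ⊕ Fin (M + 3)) → ℕ) (i : Fin m) (j j' : Fin 4) :
    c0 ι s((gv i j : W t M m), gv i j') = 3 * (i : ℕ) + gg j j' := by
  rw [c0_mk]
  simp only [gv, col, min_self]

private lemma hb_ne_gv {t M m : ℕ} (i : Fin m) (j : Fin 4) (n : Fin 3) :
    (hb n : W t M m) ≠ gv i j := by
  intro h
  exact absurd h (by simp [hb, gv])

private lemma gv_ne {t M m : ℕ} (i : Fin m) {j j' : Fin 4} (h : j ≠ j') :
    (gv i j : W t M m) ≠ gv i j' := by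
  intro h1
  apply h
  simpa [gv] using h1

private lemma s_ne1 {V : Type} {a b c d : V} (h1 : a ≠ c) (h2 : a ≠ d) : s(a, b) ≠ s(c, d) := by
  intro h
  rw [Sym2.eq_iff] at h
  rcases h with h | h
  · exact h1 h.1
  · exact h2 h.1

section main

variable {t M m k : ℕ} {ι : Sym2 (Fin t ⊕ Fin (M + 3)) → ℕ} {p : ZMod k → W t M m}

private lemma x_off (hk : 4 ≤ k) (hp : RainbowCycle k (G0 t M m) (c0 ι) p) (i : Fin m) :
    ¬ ∃ n, p n = gv i 2 := by
  intro hx
  -- edges at x
  have hxh : EE p (gv i 2) (hb 1) := by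
    obtain ⟨z, hz, hE⟩ := EE.two hk hp hx (gv i 1)
    rcases adj_x (hE.adj hp) with rfl | rfl
    · exact hE
    · exact absurd rfl hz
  have hxb : EE p (gv i 2) (gv i 1) := by
    obtain ⟨z, hz, hE⟩ := EE.two hk hp hx (hb 1)
    rcases adj_x (hE.adj hp) with rfl | rfl
    · exact absurd rfl hz
    · exact hE
  have hba : EE p (gv i 1) (gv i 0) := by
    obtain ⟨z, hz, hE⟩ := EE.two hk hp hxb.on (gv i 2)
    rcases adj_b (hE.adj hp) with rfl | rfl | rfl
    · exfalso
      have h := hE.col hp hxh (by rw [c_gh, c_gh]; rfl)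
      exact s_ne1 (gv_ne i (by decide)) (hb_ne_gv i 1 1).symm h
    · exact hE
    · exact absurd rfl hz
  obtain ⟨z, hz, hE⟩ := EE.two hk hp hba.on (gv i 1)
  rcases adj_a (hE.adj hp) with rfl | rfl | rfl
  · have h := hE.col hp hxb (by rw [c_gh, c_gg]; rfl)
    exact s_ne1 (gv_ne i (by decide)) (gv_ne i (by decide)) h
  · exact hz rfl
  · have h := hE.col hp hxh (by rw [c_gh, c_gg]; rfl)
    exact s_ne1 (gv_ne i (by decide)) (hb_ne_gv i 0 1).symm h

private lemma d_off (hk : 4 ≤ k) (hp : RainbowCycle k (G0 t M m) (c0 ι) p) (i : Fin m) :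
    ¬ ∃ n, p n = gv i 3 := by
  intro hx
  have hdh : EE p (gv i 3) (hb 2) := by
    obtain ⟨z, hz, hE⟩ := EE.two hk hp hx (gv i 0)
    rcases adj_d (hE.adj hp) with rfl | rfl
    · exact hE
    · exact absurd rfl hz
  have hda : EE p (gv i 3) (gv i 0) := by
    obtain ⟨z, hz, hE⟩ := EE.two hk hp hx (hb 2)
    rcases adj_d (hE.adj hp) with rfl | rfl
    · exact absurd rfl hz
    · exact hE
  have hab : EE p (gv i 0) (gv i 1) := by
    obtain ⟨z, hz, hE⟩ := EE.two hk hp hda.on (gv i 3)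
    rcases adj_a (hE.adj hp) with rfl | rfl | rfl
    · exfalso
      have h := hE.col hp hdh (by rw [c_gh, c_gh]; rfl)
      exact s_ne1 (gv_ne i (by decide)) (hb_ne_gv i 0 2).symm h
    · exact hE
    · exact absurd rfl hz
  obtain ⟨z, hz, hE⟩ := EE.two hk hp hab.on (gv i 0)
  rcases adj_b (hE.adj hp) with rfl | rfl | rfl
  · have h := hE.col hp hda (by rw [c_gh, c_gg]; rfl)
    exact s_ne1 (gv_ne i (by decide)) (gv_ne i (by decide)) h
  · exact hz rfl
  · have h := hE.col hp hdh (by rw [c_gh, c_gg]; rfl)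
    exact s_ne1 (gv_ne i (by decide)) (hb_ne_gv i 1 2).symm h

private lemma a_off (hk : 4 ≤ k) (hp : RainbowCycle k (G0 t M m) (c0 ι) p) (i : Fin m) :
    ¬ ∃ n, p n = gv i 0 := by
  rintro ⟨n, hn⟩
  have hxo := x_off hk hp i
  have hdo := d_off hk hp i
  -- the E-neighbours of `a` and `b`
  have hA : ∀ y, EE p (gv i 0) y → y = hb 0 ∨ y = gv i 1 := by
    intro y hE
    rcases adj_a (hE.adj hp) with h | h | h
    · exact Or.inl h
    · exact Or.inr h
    · exact absurd (h ▸ hE.on) hdo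
  have hB : ∀ y, EE p (gv i 1) y → y = hb 0 ∨ y = gv i 0 := by
    intro y hE
    rcases adj_b (hE.adj hp) with h | h | h
    · exact Or.inl h
    · exact Or.inr h
    · exact absurd (h ▸ hE.on) hxo
  have hne : p (n + 1) ≠ p (n - 1) := by
    intro h
    have h1 := hp.1 h
    apply two_ne hk
    linear_combination h1
  have e1 := hA (p (n + 1)) ⟨n, Or.inl ⟨hn.symm, rfl⟩⟩
  have e2 := hA (p (n - 1)) ⟨n - 1, Or.inr ⟨by rw [sub_add_cancel, hn], rfl⟩⟩
  rcases e1 with e1 | e1
  · rcases e2 with e2 | e2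
    · exact hne (e1.trans e2.symm)
    · rcases hB (p (n - 2)) ⟨n - 2, Or.inr ⟨by rw [← e2]; congr 1; ring, rfl⟩⟩ with e3 | e3
      · have h1 := hp.1 (e3.trans e1.symm)
        apply three_ne hk
        linear_combination -h1
      · have h1 := hp.1 (e3.trans hn.symm)
        apply two_ne hk
        linear_combination -h1
  · rcases e2 with e2 | e2
    · rcases hB (p (n + 2)) ⟨n + 1, Or.inl ⟨e1.symm, by congr 1; ring⟩⟩ with e3 | e3
      · have h1 := hp.1 (e3.trans e2.symm)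
        apply three_ne hk
        linear_combination h1
      · have h1 := hp.1 (e3.trans hn.symm)
        apply two_ne hk
        linear_combination h1
    · exact hne (e1.trans e2.symm)

private lemma b_off (hk : 4 ≤ k) (hp : RainbowCycle k (G0 t M m) (c0 ι) p) (i : Fin m) :
    ¬ ∃ n, p n = gv i 1 := by
  intro hb'
  have hxo := x_off hk hp i
  have hao := a_off hk hp i
  obtain ⟨z, hz, hE⟩ := EE.two hk hp hb' (hb 0)
  rcases adj_b (hE.adj hp) with rfl | rfl | rfl
  · exact hz rfl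
  · exact hao hE.on
  · exact hxo hE.on

private lemma core_on (hk : 4 ≤ k) (hp : RainbowCycle k (G0 t M m) (c0 ι) p) (n : ZMod k) :
    ∃ u, p n = Sum.inl u := by
  rcases h : p n with u | ⟨i, j⟩
  · exact ⟨u, rfl⟩
  · exfalso
    fin_cases j
    · exact a_off hk hp i ⟨n, h⟩
    · exact b_off hk hp i ⟨n, h⟩
    · exact x_off hk hp i ⟨n, h⟩
    · exact d_off hk hp i ⟨n, h⟩

end main

theorem free_G0 {t M m k : ℕ} (hk : 2 * t + 1 ≤ k) (hk4 : 4 ≤ k) : RainbowFree k (G0 t M m) := by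
  obtain ⟨ι, hι⟩ := exists_injective_nat (Sym2 (Fin t ⊕ Fin (M + 3)))
  refine ⟨c0 ι, proper_c0 hι, fun p hp => ?_⟩
  haveI : NeZero k := ⟨by omega⟩
  have hf : ∀ n : ZMod k, ∃ s : Fin t × Bool, (s.2 = false ∧ p n = Sum.inl (Sum.inl s.1)) ∨
      (s.2 = true ∧ (∃ y, p n = Sum.inl (Sum.inr y)) ∧ p (n + 1) = Sum.inl (Sum.inl s.1)) := by
    intro n
    obtain ⟨u | y, hu⟩ := core_on hk4 hp n
    · exact ⟨(u, false), Or.inl ⟨rfl, hu⟩⟩
    · obtain ⟨v | y', hv⟩ := core_on hk4 hp (n + 1)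
      · exact ⟨(v, true), Or.inr ⟨rfl, ⟨y, hu⟩, hv⟩⟩
      · exfalso
        have h := hp.2.1 n
        rw [hu, hv] at h
        exact h
  choose f hf using hf
  have hinj : Function.Injective f := by
    intro n n' h
    rcases hf n with ⟨h1, h2⟩ | ⟨h1, ⟨y, h2⟩, h3⟩ <;> rcases hf n' with ⟨h1', h2'⟩ | ⟨h1', ⟨y', h2'⟩, h3'⟩
    · rw [← h] at h2'
      exact hp.1 (h2.trans h2'.symm)
    · rw [← h, h1] at h1'
      exact absurd h1' (by simp)
    · rw [← h, h1] at h1'
      exact absurd h1' (by simp)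
    · rw [← h] at h3'
      have h4 := hp.1 (h3.trans h3'.symm)
      exact add_right_cancel h4
  have hcard := Fintype.card_le_of_injective f hinj
  rw [ZMod.card, Fintype.card_prod, Fintype.card_fin, Fintype.card_bool] at hcard
  omega

end Pool.Agent.RSU
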