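import Pool.Agent.RSU.Cl
import Pool.Agent.RSU.Crit
import Pool.Agent.RSU.Free

/-!
# RSU-Ext: saturated extensions of `G0`

A rainbow free graph above `G0` has no further edges at the gadgets, so a maximal one is saturated and has
at most `(t + M + 3) ^ 2 + 7 m` edges.
-/

set_option autoImplicit false

namespace Pool.Agent.RSU

open Pool.Agent.Helper57.Rs

private def Tf (t M m : ℕ) : Finset (W t M m) :=
  Finset.univ.image (fun x : Fin t => Sum.inl (Sum.inl x))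

private def Mf (t M m : ℕ) : Finset (W t M m) :=
  Finset.univ.image (fun x : Fin (M + 3) => Sum.inl (Sum.inr x))

private theorem mem_Tf {t M m : ℕ} (v : W t M m) :
    v ∈ Tf t M m ↔ ∃ x : Fin t, v = Sum.inl (Sum.inl x) := by
  unfold Tf
  simp only [Finset.mem_image, Finset.mem_univ, true_and]
  exact ⟨fun ⟨x, h⟩ => ⟨x, h.symm⟩, fun ⟨x, h⟩ => ⟨x, h.symm⟩⟩

private theorem mem_Mf {t M m : ℕ} (v : W t M m) :
    v ∈ Mf t M m ↔ ∃ x : Fin (M + 3), v = Sum.inl (Sum.inr x) := by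
  unfold Mf
  simp only [Finset.mem_image, Finset.mem_univ, true_and]
  exact ⟨fun ⟨x, h⟩ => ⟨x, h.symm⟩, fun ⟨x, h⟩ => ⟨x, h.symm⟩⟩

private theorem card_Tf (t M m : ℕ) : (Tf t M m).card = t := by
  unfold Tf
  rw [Finset.card_image_of_injective _ (fun x y h => by simpa using h)]
  simp

private theorem card_Mf (t M m : ℕ) : (Mf t M m).card = M + 3 := by
  unfold Mf
  rw [Finset.card_image_of_injective _ (fun x y h => by simpa using h)]
  simp

private theorem disj_TM (t M m : ℕ) : Disjoint (Tf t M m) (Mf t M m) := by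
  rw [Finset.disjoint_left]
  intro v hv hv'
  obtain ⟨x, rfl⟩ := (mem_Tf v).1 hv
  obtain ⟨y, hy⟩ := (mem_Mf _).1 hv'
  simp at hy

private theorem le_adj {t M m : ℕ} {G : SimpleGraph (W t M m)} (hG : G0 t M m ≤ G) {u v : W t M m}
    (h : adj0 t M m u v) : G.Adj u v := hG (show (G0 t M m).Adj u v from h)

private theorem cl_ext {t M m k : ℕ} (h9 : 9 ≤ t) (hM : 6 * t + 20 ≤ M) (hk1 : 2 * t + 1 ≤ k)
    (hk2 : k ≤ 2 * t + 2) {G : SimpleGraph (W t M m)} (hG : G0 t M m ≤ G) {c : Sym2 (W t M m) → ℕ}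
    (hc : Proper G c) (hf : ∀ p, ¬ RainbowCycle k G c p) :
    CL G c (Tf t M m : Set (W t M m)) (Mf t M m : Set (W t M m)) := by
  apply cl_of_free hc _ _ (disj_TM t M m) (by rw [card_Tf]; exact h9)
    (by rw [card_Tf, card_Mf]; omega) (by rw [card_Tf]; exact hk1) (by rw [card_Tf]; exact hk2) hf
  · intro x hx y hy
    obtain ⟨x, rfl⟩ := (mem_Tf _).1 hx
    obtain ⟨y, rfl⟩ := (mem_Mf _).1 hy
    exact le_adj hG trivial
  · intro x hx y hy hxy
    obtain ⟨x, rfl⟩ := (mem_Tf _).1 hx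
    obtain ⟨y, rfl⟩ := (mem_Tf _).1 hy
    exact le_adj hG (fun h => hxy (by rw [h]))

private def hb (t M m : ℕ) (j : Fin 3) : W t M m :=
  Sum.inl (Sum.inr ⟨(j : ℕ), by have := j.2; omega⟩)

private theorem hb_mem (t M m : ℕ) (j : Fin 3) : hb t M m j ∈ (Mf t M m : Set (W t M m)) := by
  rw [Finset.mem_coe, mem_Mf]
  exact ⟨_, rfl⟩

private theorem hb_ne {t M m : ℕ} {j j' : Fin 3} (h : j ≠ j') : hb t M m j ≠ hb t M m j' := by
  intro h'
  apply h
  unfold hb at h'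
  simp only [Sum.inl.injEq, Sum.inr.injEq, Fin.mk.injEq] at h'
  exact Fin.ext h'

private theorem gad_ext {t M m : ℕ} {G : SimpleGraph (W t M m)} (hG : G0 t M m ≤ G) (i : Fin m) :
    Gad G (hb t M m 0) (hb t M m 1) (hb t M m 2) (Sum.inr (i, 0)) (Sum.inr (i, 1)) (Sum.inr (i, 2))
      (Sum.inr (i, 3)) where
  ah := le_adj hG rfl
  bh := le_adj hG rfl
  xh := le_adj hG rfl
  dh := le_adj hG rfl
  ab := le_adj hG ⟨rfl, rfl⟩
  bx := le_adj hG ⟨rfl, rfl⟩
  ad := le_adj hG ⟨rfl, rfl⟩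
  ax := by simp
  bd := by simp
  xd := by simp

private theorem out_ext {t M m : ℕ} (i : Fin m) (z : W t M m)
    (h : z = Sum.inr (i, 0) ∨ z = Sum.inr (i, 1) ∨ z = Sum.inr (i, 2) ∨ z = Sum.inr (i, 3)) :
    z ∉ (Tf t M m : Set (W t M m)) ∧ z ∉ (Mf t M m : Set (W t M m)) := by
  simp only [Finset.mem_coe, mem_Tf, mem_Mf]
  rcases h with rfl | rfl | rfl | rfl <;> simp

private theorem in_four {t M m : ℕ} (i : Fin m) (j : Fin 4) :
    (Sum.inr (i, j) : W t M m) = Sum.inr (i, 0) ∨ (Sum.inr (i, j) : W t M m) = Sum.inr (i, 1) ∨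
      (Sum.inr (i, j) : W t M m) = Sum.inr (i, 2) ∨ (Sum.inr (i, j) : W t M m) = Sum.inr (i, 3) := by
  fin_cases j
  · exact Or.inl rfl
  · exact Or.inr (Or.inl rfl)
  · exact Or.inr (Or.inr (Or.inl rfl))
  · exact Or.inr (Or.inr (Or.inr rfl))

private theorem hb_eq {t M m : ℕ} {v : W t M m} {j : Fin 3} (h : v = hb t M m j) :
    ∃ y : Fin (M + 3), v = Sum.inl (Sum.inr y) ∧ (y : ℕ) = (j : ℕ) :=
  ⟨_, h, rfl⟩

/-- a rainbow free graph above `G0` has the same edges at the gadgets -/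
theorem ext_adj {t M m k : ℕ} (h9 : 9 ≤ t) (hM : 6 * t + 20 ≤ M) (hk1 : 2 * t + 1 ≤ k)
    (hk2 : k ≤ 2 * t + 2) {G : SimpleGraph (W t M m)} (hG : G0 t M m ≤ G) (hf : RainbowFree k G)
    (z : Fin m × Fin 4) (y : W t M m) (h : G.Adj (Sum.inr z) y) : (G0 t M m).Adj (Sum.inr z) y := by
  obtain ⟨c, hc, hp⟩ := hf
  have hcl := cl_ext h9 hM hk1 hk2 hG hc hp
  have n01 : hb t M m 0 ≠ hb t M m 1 := hb_ne (by decide)
  have n02 : hb t M m 0 ≠ hb t M m 2 := hb_ne (by decide)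
  have n12 : hb t M m 1 ≠ hb t M m 2 := hb_ne (by decide)
  have hd : Disjoint (Tf t M m : Set (W t M m)) (Mf t M m : Set (W t M m)) := by
    exact_mod_cast disj_TM t M m
  obtain ⟨i, j⟩ := z
  have core : ∀ v : W t M m, (v ∈ (Tf t M m : Set (W t M m)) ∨ v ∈ (Mf t M m : Set (W t M m))) →
      G.Adj (Sum.inr (i, j)) v → ∃ y : Fin (M + 3), v = Sum.inl (Sum.inr y) ∧ (y : ℕ) = hub j := by
    intro v hv hadj
    obtain ⟨e0, e1, e2, e3⟩ := crit_core hc hcl (hb_mem t M m 0) (hb_mem t M m 1) (hb_mem t M m 2)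
      n01 n02 n12 hd (gad_ext hG i) (out_ext i) hv
    fin_cases j
    · exact hb_eq (e0 hadj)
    · exact hb_eq (e1 hadj)
    · exact hb_eq (e2 hadj)
    · exact hb_eq (e3 hadj)
  rcases y with (x | x) | ⟨i', j'⟩
  · exfalso
    obtain ⟨y, hy, _⟩ := core _ (Or.inl (by rw [Finset.mem_coe, mem_Tf]; exact ⟨x, rfl⟩)) h
    simp at hy
  · obtain ⟨y, hy, hy'⟩ := core _ (Or.inr (by rw [Finset.mem_coe, mem_Mf]; exact ⟨x, rfl⟩)) h
    have : x = y := by simpa using hy
    subst this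
    exact hy'
  · by_cases hii : i = i'
    · subst hii
      obtain ⟨f1, f2, f3⟩ := crit_in hc hcl (hb_mem t M m 0) (hb_mem t M m 1) (hb_mem t M m 2)
        n01 n02 n12 (gad_ext hG i) (out_ext i)
      refine ⟨rfl, ?_⟩
      show ed j j' = true
      fin_cases j <;> fin_cases j' <;>
        first
        | rfl
        | exact absurd h (G.loopless.irrefl _)
        | exact absurd h f1
        | exact absurd h f2
        | exact absurd h f3
        | exact absurd h.symm f1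
        | exact absurd h.symm f2
        | exact absurd h.symm f3
    · exfalso
      refine crit_two hc hcl (hb_mem t M m 0) (hb_mem t M m 1) (hb_mem t M m 2)
        n01 n02 n12 (gad_ext hG i) (out_ext i) (gad_ext hG i') (out_ext i') ?_ _ _ (in_four i j)
        (in_four i' j') h
      intro z z' hz hz' hzz
      subst hzz
      apply hii
      rcases hz with rfl | rfl | rfl | rfl <;> rcases hz' with hz' | hz' | hz' | hz' <;>
        · simp only [Sum.inr.injEq, Prod.mk.injEq] at hz'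
          exact hz'.1

private def sev (t M m : ℕ) : Fin m → Fin 7 → Sym2 (W t M m)
  | i, 0 => s(Sum.inr (i, 0), hb t M m 0)
  | i, 1 => s(Sum.inr (i, 1), hb t M m 0)
  | i, 2 => s(Sum.inr (i, 2), hb t M m 1)
  | i, 3 => s(Sum.inr (i, 3), hb t M m 2)
  | i, 4 => s(Sum.inr (i, 0), Sum.inr (i, 1))
  | i, 5 => s(Sum.inr (i, 1), Sum.inr (i, 2))
  | i, 6 => s(Sum.inr (i, 0), Sum.inr (i, 3))

private theorem sev_of_adj {t M m : ℕ} (z : Fin m × Fin 4) (y : W t M m)
    (h : (G0 t M m).Adj (Sum.inr z) y) : ∃ q : Fin m × Fin 7, sev t M m q.1 q.2 = s(Sum.inr z, y) := by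
  obtain ⟨i, j⟩ := z
  rcases y with (x | x) | ⟨i', j'⟩
  · exact h.elim
  · have h' : (x : ℕ) = hub j := h
    have hx : ∀ (l : Fin 3), (x : ℕ) = (l : ℕ) → hb t M m l = Sum.inl (Sum.inr x) := by
      intro l hl
      unfold hb
      rw [Sum.inl.injEq, Sum.inr.injEq]
      exact Fin.ext hl.symm
    fin_cases j
    · exact ⟨(i, 0), by rw [← hx 0 h']; rfl⟩
    · exact ⟨(i, 1), by rw [← hx 0 h']; rfl⟩
    · exact ⟨(i, 2), by rw [← hx 1 h']; rfl⟩
    · exact ⟨(i, 3), by rw [← hx 2 h']; rfl⟩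
  · have h' : i = i' ∧ ed j j' = true := h
    obtain ⟨rfl, he⟩ := h'
    fin_cases j <;> fin_cases j' <;>
      first
      | exact absurd he (by decide)
      | exact ⟨(i, 4), rfl⟩
      | exact ⟨(i, 5), rfl⟩
      | exact ⟨(i, 6), rfl⟩
      | exact ⟨(i, 4), Sym2.eq_swap⟩
      | exact ⟨(i, 5), Sym2.eq_swap⟩
      | exact ⟨(i, 6), Sym2.eq_swap⟩

theorem ext_card {t M m : ℕ} {G : SimpleGraph (W t M m)}
    (h : ∀ (z : Fin m × Fin 4) (y : W t M m), G.Adj (Sum.inr z) y → (G0 t M m).Adj (Sum.inr z) y) :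
    G.edgeSet.ncard ≤ (t + M + 3) ^ 2 + 7 * m := by
  classical
  have hsub : G.edgeSet ⊆
      (((Finset.univ : Finset ((Fin t ⊕ Fin (M + 3)) × (Fin t ⊕ Fin (M + 3)))).image
        (fun q => (s(Sum.inl q.1, Sum.inl q.2) : Sym2 (W t M m)))) ∪
      ((Finset.univ : Finset (Fin m × Fin 7)).image (fun q => sev t M m q.1 q.2)) :
        Finset (Sym2 (W t M m))) := by
    intro e
    refine Sym2.inductionOn e ?_
    intro u v huv
    rw [SimpleGraph.mem_edgeSet] at huv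
    rw [Finset.mem_coe, Finset.mem_union, Finset.mem_image, Finset.mem_image]
    rcases u with u | z
    · rcases v with v | z
      · exact Or.inl ⟨(u, v), Finset.mem_univ _, rfl⟩
      · right
        obtain ⟨q, hq⟩ := sev_of_adj z _ (h z _ huv.symm)
        exact ⟨q, Finset.mem_univ _, by rw [hq]; exact Sym2.eq_swap⟩
    · right
      obtain ⟨q, hq⟩ := sev_of_adj z _ (h z _ huv)
      exact ⟨q, Finset.mem_univ _, hq⟩
  refine (Set.ncard_le_ncard hsub (Finset.finite_toSet _)).trans ?_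
  rw [Set.ncard_coe_finset]
  refine (Finset.card_union_le _ _).trans ?_
  refine (Nat.add_le_add Finset.card_image_le Finset.card_image_le).trans ?_
  rw [Finset.card_univ, Finset.card_univ]
  simp only [Fintype.card_prod, Fintype.card_sum, Fintype.card_fin]
  apply le_of_eq
  ring

theorem exists_sat {t M m k : ℕ} (h9 : 9 ≤ t) (hM : 6 * t + 20 ≤ M) (hk1 : 2 * t + 1 ≤ k)
    (hk2 : k ≤ 2 * t + 2) : ∃ G : SimpleGraph (W t M m), Saturated k G ∧
      G.edgeSet.ncard ≤ (t + M + 3) ^ 2 + 7 * m := by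
  have h0 : RainbowFree k (G0 t M m) := free_G0 hk1 (by omega)
  obtain ⟨G, hle, hG⟩ :=
    (Set.toFinite {G : SimpleGraph (W t M m) | RainbowFree k G}).exists_le_maximal h0
  refine ⟨G, ⟨hG.prop, ?_⟩, ext_card (ext_adj h9 hM hk1 hk2 hle hG.prop)⟩
  intro u v huv hadj hfree
  have hle' : G ≤ G ⊔ SimpleGraph.edge u v := le_sup_left
  have := hG.le_of_ge hfree hle'
  apply hadj
  apply this
  rw [SimpleGraph.sup_adj]
  right
  rw [SimpleGraph.edge_adj]
  exact ⟨Or.inl ⟨rfl, rfl⟩, huv⟩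

end Pool.Agent.RSU
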