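import Pool.Agent.RSU.Cyc

/-!
# RSU-Path: robust rainbow paths in the core

`conn` connects the elements of a list of vertices of `T` through elements of `M`, one after the other (greedily, all forbidden elements
of `M` are excluded by counting); `core_path` chooses the first and the last vertices of `T` (one more in the odd case).
-/

set_option autoImplicit false

namespace Pool.Agent.RSU

open Pool.Agent.Helper57.Rs

variable {V : Type}

private theorem filt {G : SimpleGraph V} {c : Sym2 V → ℕ} (hc : Proper G c) {M : Finset V} {x : V}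
    (hx : ∀ y ∈ M, G.Adj x y) (A : Finset ℕ) :
    (M.filter fun z => c s(x, z) ∈ A).card ≤ A.card := by
  classical
  apply Finset.card_le_card_of_injOn (fun z => c s(x, z))
  · intro z hz
    have hz' := Finset.mem_coe.1 hz
    exact (Finset.mem_filter.1 hz').2
  · intro z hz w hw h
    have hz' := (Finset.mem_filter.1 (Finset.mem_coe.1 hz)).1
    have hw' := (Finset.mem_filter.1 (Finset.mem_coe.1 hw)).1
    by_contra hne
    exact hc x z w (hx z hz') (hx w hw') hne h

/-- one element of `M` with many restrictions -/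
private theorem pick {G : SimpleGraph V} {c : Sym2 V → ℕ} (hc : Proper G c) {M : Finset V}
    {x y : V} (hx : ∀ z ∈ M, G.Adj x z) (hy : ∀ z ∈ M, G.Adj y z) (A : Finset ℕ) (B : Finset V)
    (h : B.card + 2 * A.card < M.card) :
    ∃ z ∈ M, z ∉ B ∧ c s(x, z) ∉ A ∧ c s(z, y) ∉ A := by
  classical
  by_contra hcon
  push Not at hcon
  have hsub : M ⊆ B ∪ ((M.filter fun z => c s(x, z) ∈ A) ∪ (M.filter fun z => c s(y, z) ∈ A)) := by
    intro z hz
    rw [Finset.mem_union, Finset.mem_union, Finset.mem_filter, Finset.mem_filter]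
    by_cases h1 : z ∈ B
    · exact Or.inl h1
    · by_cases h2 : c s(x, z) ∈ A
      · exact Or.inr (Or.inl ⟨hz, h2⟩)
      · refine Or.inr (Or.inr ⟨hz, ?_⟩)
        rw [Sym2.eq_swap]
        exact hcon z hz h1 h2
  have h1 := Finset.card_le_card hsub
  have h2 := Finset.card_union_le B
    ((M.filter fun z => c s(x, z) ∈ A) ∪ (M.filter fun z => c s(y, z) ∈ A))
  have h3 := Finset.card_union_le (M.filter fun z => c s(x, z) ∈ A)
    (M.filter fun z => c s(y, z) ∈ A)
  have h4 := filt hc hx A
  have h5 := filt hc hy A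
  omega

/-- one element of `M` with restrictions for one colour -/
private theorem pick1 {G : SimpleGraph V} {c : Sym2 V → ℕ} (hc : Proper G c) {M : Finset V}
    {x : V} (hx : ∀ z ∈ M, G.Adj x z) (A : Finset ℕ) (B : Finset V)
    (h : B.card + A.card < M.card) : ∃ z ∈ M, z ∉ B ∧ c s(x, z) ∉ A := by
  classical
  by_contra hcon
  push Not at hcon
  have hsub : M ⊆ B ∪ (M.filter fun z => c s(x, z) ∈ A) := by
    intro z hz
    rw [Finset.mem_union, Finset.mem_filter]
    by_cases h1 : z ∈ B
    · exact Or.inl h1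
    · exact Or.inr ⟨hz, hcon z hz h1⟩
  have h1 := Finset.card_le_card hsub
  have h2 := Finset.card_union_le B (M.filter fun z => c s(x, z) ∈ A)
  have h4 := filt hc hx A
  omega

private theorem cols_len (c : Sym2 V → ℕ) : ∀ l : List V, (cols c l).length ≤ l.length
  | [] => by simp [cols]
  | [a] => by simp [cols]
  | a :: b :: l => by
    have := cols_len c (b :: l)
    simp only [cols, List.length_cons] at this ⊢
    omega

private theorem rb_cons {G : SimpleGraph V} {c : Sym2 V → ℕ} {u a : V} {l : List V}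
    (h : Rb G c l) (hh : l.head? = some a) (hadj : G.Adj u a) (hu : u ∉ l)
    (hcol : c s(u, a) ∉ cols c l) :
    Rb G c (u :: l) ∧ cols c (u :: l) = c s(u, a) :: cols c l := by
  cases l with
  | nil => simp at hh
  | cons b l =>
    rw [List.head?_cons, Option.some.injEq] at hh
    subst hh
    refine ⟨⟨?_, ?_, ?_⟩, rfl⟩
    · exact List.isChain_cons_cons.2 ⟨hadj, h.chain⟩
    · exact List.nodup_cons.2 ⟨hu, h.nodup⟩
    · exact List.nodup_cons.2 ⟨hcol, h.rain⟩

private theorem rb_snoc {G : SimpleGraph V} {c : Sym2 V → ℕ} {b v : V} {l : List V}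
    (h : Rb G c l) (hh : l.getLast? = some b) (hadj : G.Adj b v) (hv : v ∉ l)
    (hcol : c s(b, v) ∉ cols c l) :
    Rb G c (l ++ [v]) ∧ cols c (l ++ [v]) = cols c l ++ [c s(b, v)] := by
  obtain ⟨l0, rfl⟩ := List.getLast?_eq_some_iff.1 hh
  have e : cols c (l0 ++ [b] ++ [v]) = cols c (l0 ++ [b]) ++ [c s(b, v)] := by
    have := cols_append c l0 b v []
    rw [List.append_assoc]
    exact this
  refine ⟨⟨?_, ?_, ?_⟩, e⟩
  · rw [List.isChain_append]
    refine ⟨h.chain, List.isChain_singleton _, ?_⟩
    intro x hx y hy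
    rw [hh] at hx
    rw [List.head?_cons] at hy
    rw [Option.mem_some_iff] at hx hy
    subst hx hy
    exact hadj
  · rw [List.nodup_append]
    refine ⟨h.nodup, List.nodup_singleton _, ?_⟩
    intro a ha b' hb' hab
    rw [List.mem_singleton] at hb'
    subst hb' hab
    exact hv ha
  · rw [e, List.nodup_append]
    refine ⟨h.rain, List.nodup_singleton _, ?_⟩
    intro a ha b' hb' hab
    rw [List.mem_singleton] at hb'
    subst hb' hab
    exact hcol ha

theorem conn {G : SimpleGraph V} {c : Sym2 V → ℕ} (hc : Proper G c) {T M : Finset V}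
    (hTM : ∀ x ∈ T, ∀ y ∈ M, G.Adj x y) (hd : Disjoint T M) (F : Finset ℕ) (Wd : Finset V)
    (S : List V) (hS0 : S ≠ []) (hS : S.Nodup) (hST : ∀ x ∈ S, x ∈ T)
    (hM : Wd.card + 2 * F.card + 6 * S.length < M.card) :
    ∃ l : List V, l.head? = S.head? ∧ l.getLast? = S.getLast? ∧
      l.length + 1 = 2 * S.length ∧ Rb G c l ∧ (∀ x ∈ l, x ∈ S ∨ (x ∈ M ∧ x ∉ Wd)) ∧
      ∀ y ∈ cols c l, y ∉ F := by
  classical
  induction S with
  | nil => exact absurd rfl hS0
  | cons x S ih =>
    cases S with
    | nil =>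
      refine ⟨[x], rfl, rfl, rfl, ⟨List.isChain_singleton _, List.nodup_singleton _, ?_⟩, ?_, ?_⟩
      · exact List.nodup_nil
      · intro y hy
        exact Or.inl hy
      · intro y hy
        exact absurd hy List.not_mem_nil
    | cons y S =>
      have hxy : x ∉ y :: S := (List.nodup_cons.1 hS).1
      have hxT : x ∈ T := hST x List.mem_cons_self
      have hyT : y ∈ T := hST y (List.mem_cons_of_mem _ List.mem_cons_self)
      obtain ⟨l, h1, h2, h3, h4, h5, h6⟩ := ih (List.cons_ne_nil _ _) (List.nodup_cons.1 hS).2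
        (fun z hz => hST z (List.mem_cons_of_mem _ hz)) (by
          simp only [List.length_cons] at hM ⊢
          omega)
      rw [List.head?_cons] at h1
      have hlen := cols_len c l
      obtain ⟨z, hz, hzB, hz1, hz2⟩ := pick hc (x := x) (y := y) (M := M) (hTM x hxT) (hTM y hyT)
        (F ∪ (cols c l).toFinset) (Wd ∪ l.toFinset) (by
          have g1 := Finset.card_union_le F (cols c l).toFinset
          have g2 := Finset.card_union_le Wd l.toFinset
          have g3 := List.toFinset_card_le l
          have g4 := List.toFinset_card_le (cols c l)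
          simp only [List.length_cons] at hM h3
          omega)
      rw [Finset.mem_union, not_or, List.mem_toFinset] at hzB hz1 hz2
      have hzx : z ≠ x := by
        rintro rfl
        exact Finset.disjoint_left.1 hd hxT hz
      have hne : x ≠ y := by
        rintro rfl
        exact hxy List.mem_cons_self
      obtain ⟨r1, r2⟩ := rb_cons (u := z) h4 h1 (hTM y hyT z hz).symm hzB.2 hz2.2
      have hxz : c s(x, z) ∉ cols c (z :: l) := by
        rw [r2, List.mem_cons, not_or]
        refine ⟨?_, hz1.2⟩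
        rw [Sym2.eq_swap]
        exact hc z x y (hTM x hxT z hz).symm (hTM y hyT z hz).symm hne
      have hxl : x ∉ z :: l := by
        rw [List.mem_cons, not_or]
        refine ⟨hzx.symm, fun hx => ?_⟩
        rcases h5 x hx with g | g
        · exact hxy g
        · exact Finset.disjoint_left.1 hd hxT g.1
      obtain ⟨s1, s2⟩ := rb_cons (u := x) r1 List.head?_cons (hTM x hxT z hz) hxl hxz
      refine ⟨x :: z :: l, rfl, ?_, ?_, s1, ?_, ?_⟩
      · have hl0 : l ≠ [] := by
          rintro rfl
          simp at h1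
        obtain ⟨b, l', rfl⟩ := List.exists_cons_of_ne_nil hl0
        rw [List.getLast?_cons_cons, List.getLast?_cons_cons, h2, List.getLast?_cons_cons]
      · simp only [List.length_cons] at h3 ⊢
        omega
      · intro w hw
        rw [List.mem_cons, List.mem_cons] at hw
        rcases hw with rfl | rfl | hw
        · exact Or.inl List.mem_cons_self
        · exact Or.inr ⟨hz, hzB.1⟩
        · rcases h5 w hw with g | g
          · exact Or.inl (List.mem_cons_of_mem _ g)
          · exact Or.inr g
      · intro w hw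
        rw [s2, r2, List.mem_cons, List.mem_cons] at hw
        rcases hw with rfl | rfl | hw
        · exact hz1.1
        · exact hz2.1
        · exact h6 w hw

private theorem mkS {T : Finset V} {x y : V} (hx : x ∈ T) (hy : y ∈ T) (hxy : x ≠ y) {p : ℕ}
    (h2 : 2 ≤ p) (hp : p ≤ T.card) :
    ∃ S : List V, S.length = p ∧ S.Nodup ∧ (∀ z ∈ S, z ∈ T) ∧ S.head? = some x ∧
      S.getLast? = some y := by
  classical
  have hc : ((T.erase x).erase y).card = T.card - 1 - 1 := by
    rw [Finset.card_erase_of_mem (Finset.mem_erase.2 ⟨hxy.symm, hy⟩), Finset.card_erase_of_mem hx]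
  obtain ⟨A, hA, hAc⟩ := Finset.exists_subset_card_eq (s := (T.erase x).erase y) (n := p - 2)
    (by omega)
  have hA' : ∀ z ∈ A, z ≠ y ∧ z ≠ x ∧ z ∈ T := fun z hz => by
    have := hA hz
    rwa [Finset.mem_erase, Finset.mem_erase] at this
  refine ⟨x :: (A.toList ++ [y]), ?_, ?_, ?_, rfl, ?_⟩
  · rw [List.length_cons, List.length_append, Finset.length_toList, List.length_singleton]
    omega
  · rw [List.nodup_cons, List.mem_append, Finset.mem_toList, List.mem_singleton, not_or,
      List.nodup_append]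
    refine ⟨⟨fun h => (hA' x h).2.1 rfl, hxy⟩, A.nodup_toList, List.nodup_singleton _, ?_⟩
    intro a ha b hb hab
    rw [Finset.mem_toList] at ha
    rw [List.mem_singleton] at hb
    exact (hA' a ha).1 (hab.trans hb)
  · intro z hz
    rw [List.mem_cons, List.mem_append, Finset.mem_toList, List.mem_singleton] at hz
    rcases hz with rfl | hz | rfl
    · exact hx
    · exact (hA' z hz).2.2
    · exact hy
  · rw [← List.cons_append, List.getLast?_append, List.getLast?_singleton]
    rfl

/-- the path from `u` to `v` through the list `l` -/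
private theorem close_path {G : SimpleGraph V} {c : Sym2 V → ℕ} {u a b v : V} {l : List V}
    (h : Rb G c l) (h1 : l.head? = some a) (h2 : l.getLast? = some b) (hua : G.Adj u a)
    (hbv : G.Adj b v) (hu : u ∉ l) (hv : v ∉ l) (huv : u ≠ v) (c1 : c s(u, a) ∉ cols c l)
    (c2 : c s(b, v) ∉ cols c l) (c12 : c s(u, a) ≠ c s(b, v)) :
    Rb G c (u :: (l ++ [v])) ∧
      cols c (u :: (l ++ [v])) = c s(u, a) :: (cols c l ++ [c s(b, v)]) := by
  obtain ⟨r1, r2⟩ := rb_snoc h h2 hbv hv c2
  have hh : (l ++ [v]).head? = some a := by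
    rw [List.head?_append, h1]
    rfl
  have hu' : u ∉ l ++ [v] := by
    rw [List.mem_append, List.mem_singleton, not_or]
    exact ⟨hu, huv⟩
  have hcu : c s(u, a) ∉ cols c (l ++ [v]) := by
    rw [r2, List.mem_append, List.mem_singleton, not_or]
    exact ⟨c1, c12⟩
  obtain ⟨s1, s2⟩ := rb_cons r1 hh hua hu' hcu
  exact ⟨s1, by rw [s2, r2]⟩

/-- a rainbow path of length `ℓ` from `u` to `v` in the core without the colours of `F` -/
theorem core_path {G : SimpleGraph V} {c : Sym2 V → ℕ} (hc : Proper G c) {T M : Finset V}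
    (hTM : ∀ x ∈ T, ∀ y ∈ M, G.Adj x y) (hTT : ∀ x ∈ T, ∀ y ∈ T, x ≠ y → G.Adj x y)
    (hd : Disjoint T M) (F : Finset ℕ) (hF : F.card + 4 ≤ T.card) {ℓ : ℕ} (h6 : 6 ≤ ℓ)
    (hℓ : ℓ ≤ 2 * T.card) (hM : 2 * F.card + 6 * T.card + 8 < M.card) {u v : V} (hu : u ∈ M)
    (hv : v ∈ M) (huv : u ≠ v) :
    ∃ l : List V, l.length + 1 = ℓ ∧ Rb G c (u :: (l ++ [v])) ∧ (∀ x ∈ l, x ∈ T ∨ x ∈ M) ∧
      ∀ y ∈ cols c (u :: (l ++ [v])), y ∉ F := by
  classical
  have hd' : ∀ x ∈ T, x ∉ M := fun x hx hx' => Finset.disjoint_left.1 hd hx hx'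
  have huT : ∀ z ∈ T, G.Adj u z := fun z hz => (hTM z hz u hu).symm
  have hvT : ∀ z ∈ T, G.Adj v z := fun z hz => (hTM z hz v hv).symm
  obtain ⟨x1, hx1, -, hc1⟩ := pick1 hc huT F ∅ (by simp; omega)
  obtain ⟨x2, hx2, hx21, hc2⟩ := pick1 hc hvT (insert (c s(u, x1)) F) {x1} (by
    have := Finset.card_insert_le (c s(u, x1)) F
    rw [Finset.card_singleton]
    omega)
  rw [Finset.mem_singleton] at hx21
  rw [Finset.mem_insert, not_or, Sym2.eq_swap] at hc2
  have hW : ({u, v} : Finset V).card ≤ 2 := Finset.card_le_two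
  rcases Nat.even_or_odd' ℓ with ⟨p, rfl | rfl⟩
  · -- even
    obtain ⟨S, hSl, hSn, hST, hSh, hSt⟩ := mkS hx1 hx2 (Ne.symm hx21) (p := p) (by omega)
      (by omega)
    have hF' : (insert (c s(u, x1)) (insert (c s(x2, v)) F)).card ≤ F.card + 2 := by
      have g1 := Finset.card_insert_le (c s(u, x1)) (insert (c s(x2, v)) F)
      have g2 := Finset.card_insert_le (c s(x2, v)) F
      omega
    obtain ⟨l, l1, l2, l3, l4, l5, l6⟩ := conn hc hTM hd
      (insert (c s(u, x1)) (insert (c s(x2, v)) F)) {u, v} S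
      (by rintro rfl; simp at hSl; omega) hSn hST (by rw [hSl]; omega)
    rw [hSh] at l1
    rw [hSt] at l2
    have hul : u ∉ l := fun h => by
      rcases l5 u h with g | g
      · exact hd' u (hST u g) hu
      · exact g.2 (by simp)
    have hvl : v ∉ l := fun h => by
      rcases l5 v h with g | g
      · exact hd' v (hST v g) hv
      · exact g.2 (by simp)
    have hcu : c s(u, x1) ∉ cols c l := fun h => l6 _ h (Finset.mem_insert_self _ _)
    have hcv : c s(x2, v) ∉ cols c l := fun h =>
      l6 _ h (Finset.mem_insert_of_mem (Finset.mem_insert_self _ _))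
    obtain ⟨r1, r2⟩ := close_path l4 l1 l2 (huT x1 hx1) (hvT x2 hx2).symm hul hvl huv hcu hcv
      (Ne.symm hc2.1)
    refine ⟨l, by rw [l3, hSl], r1, ?_, ?_⟩
    · intro x hx
      rcases l5 x hx with g | g
      · exact Or.inl (hST x g)
      · exact Or.inr g.1
    · intro y hy
      rw [r2, List.mem_cons, List.mem_append, List.mem_singleton] at hy
      rcases hy with rfl | hy | rfl
      · exact hc1
      · intro hyF
        exact l6 y hy (Finset.mem_insert_of_mem (Finset.mem_insert_of_mem hyF))
      · exact hc2.2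
  · -- odd
    have hx1T : ∀ z ∈ T.erase x1, G.Adj x1 z := fun z hz => by
      rw [Finset.mem_erase] at hz
      exact hTT x1 hx1 z hz.2 (Ne.symm hz.1)
    have hTe : (T.erase x1).card = T.card - 1 := Finset.card_erase_of_mem hx1
    obtain ⟨x3, hx3, hx32, hc3⟩ := pick1 hc hx1T (insert (c s(x2, v)) F) {x2} (by
      have := Finset.card_insert_le (c s(x2, v)) F
      rw [Finset.card_singleton]
      omega)
    rw [Finset.mem_singleton] at hx32
    rw [Finset.mem_insert, not_or] at hc3
    have hx3' := Finset.mem_erase.1 hx3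
    obtain ⟨S, hSl, hSn, hST, hSh, hSt⟩ := mkS (T := T.erase x1) hx3
      (Finset.mem_erase.2 ⟨hx21, hx2⟩) hx32 (p := p) (by omega) (by omega)
    have hST' : ∀ z ∈ S, z ∈ T := fun z hz => (Finset.mem_erase.1 (hST z hz)).2
    have hF' : (insert (c s(u, x1)) (insert (c s(x2, v)) (insert (c s(x1, x3)) F))).card ≤
        F.card + 3 := by
      have g1 := Finset.card_insert_le (c s(u, x1)) (insert (c s(x2, v)) (insert (c s(x1, x3)) F))
      have g2 := Finset.card_insert_le (c s(x2, v)) (insert (c s(x1, x3)) F)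
      have g3 := Finset.card_insert_le (c s(x1, x3)) F
      omega
    obtain ⟨l, l1, l2, l3, l4, l5, l6⟩ := conn hc hTM hd
      (insert (c s(u, x1)) (insert (c s(x2, v)) (insert (c s(x1, x3)) F))) {u, v} S
      (by rintro rfl; simp at hSl; omega) hSn hST' (by rw [hSl]; omega)
    rw [hSh] at l1
    rw [hSt] at l2
    have hul : u ∉ l := fun h => by
      rcases l5 u h with g | g
      · exact hd' u (hST' u g) hu
      · exact g.2 (by simp)
    have hvl : v ∉ l := fun h => by
      rcases l5 v h with g | g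
      · exact hd' v (hST' v g) hv
      · exact g.2 (by simp)
    have hx1l : x1 ∉ l := fun h => by
      rcases l5 x1 h with g | g
      · exact (Finset.mem_erase.1 (hST x1 g)).1 rfl
      · exact hd' x1 hx1 g.1
    have hcu : c s(u, x1) ∉ cols c l := fun h => l6 _ h (Finset.mem_insert_self _ _)
    have hcv : c s(x2, v) ∉ cols c l := fun h =>
      l6 _ h (Finset.mem_insert_of_mem (Finset.mem_insert_self _ _))
    have hcx : c s(x1, x3) ∉ cols c l := fun h =>
      l6 _ h (Finset.mem_insert_of_mem (Finset.mem_insert_of_mem (Finset.mem_insert_self _ _)))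
    have hu1 : u ≠ x1 := fun h => hd' x1 hx1 (h ▸ hu)
    have hv1 : v ≠ x1 := fun h => hd' x1 hx1 (h ▸ hv)
    have hu3 : u ≠ x3 := fun h => hd' x3 hx3'.2 (h ▸ hu)
    obtain ⟨q1, q2⟩ := rb_cons l4 l1 (hx1T x3 hx3) hx1l hcx
    have hcu3 : c s(u, x1) ≠ c s(x1, x3) := by
      rw [Sym2.eq_swap]
      exact hc x1 u x3 (huT x1 hx1).symm (hx1T x3 hx3) hu3
    have hl2 : (x1 :: l).getLast? = some x2 := by
      have hl0 : l ≠ [] := by
        rintro rfl
        simp at l1
      obtain ⟨b, l', rfl⟩ := List.exists_cons_of_ne_nil hl0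
      rw [List.getLast?_cons_cons, l2]
    obtain ⟨r1, r2⟩ := close_path q1 List.head?_cons hl2 (huT x1 hx1) (hvT x2 hx2).symm
      (by rw [List.mem_cons, not_or]; exact ⟨hu1, hul⟩)
      (by rw [List.mem_cons, not_or]; exact ⟨hv1, hvl⟩) huv
      (by rw [q2, List.mem_cons, not_or]; exact ⟨hcu3, hcu⟩)
      (by rw [q2, List.mem_cons, not_or]; exact ⟨Ne.symm hc3.1, hcv⟩) (Ne.symm hc2.1)
    refine ⟨x1 :: l, by rw [List.length_cons, l3, hSl], r1, ?_, ?_⟩
    · intro x hx
      rw [List.mem_cons] at hx
      rcases hx with rfl | hx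
      · exact Or.inl hx1
      · rcases l5 x hx with g | g
        · exact Or.inl (hST' x g)
        · exact Or.inr g.1
    · intro y hy
      rw [r2, q2, List.mem_cons, List.cons_append, List.mem_cons, List.mem_append,
        List.mem_singleton] at hy
      rcases hy with rfl | rfl | hy | rfl
      · exact hc1
      · exact hc3.2
      · intro hyF
        exact l6 y hy (Finset.mem_insert_of_mem (Finset.mem_insert_of_mem
          (Finset.mem_insert_of_mem hyF)))
      · exact hc2.2

end Pool.Agent.RSU
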